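import Pool.Agent.Lib_helper61.TU.Rank
import Pool.Agent.Lib_helper28.TE28.Statement

/-!
# The number of Tate classes and the eigenvalues of small order of the residual representation:
the form without a representation over `ℂ_[p]`
-/

set_option autoImplicit false

namespace Pool.Agent.TU

open NumberField Topology Polynomial
open Pool.Agent.TT Pool.Agent.TB Pool.Agent.TF Pool.Agent.RF Pool.Agent.TBL

section symbol

variable {K : Type} [Field K] {F : Type} [Field F] [Fintype F] {m : ℕ} {ζ : 𝓞 K} {φ : 𝓞 K →+* F}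

theorem tw_symbol_zero (hm : 0 < m) (hζ : IsPrimitiveRoot (φ ζ) m) (hmq : m ∣ Fintype.card F - 1) :
    residueSymbol m ζ φ (0 : F) = 0 := by
  classical
  unfold residueSymbol
  apply Finset.sum_eq_zero
  intro j _
  rw [if_neg]
  have h1 : (Fintype.card F - 1) / m ≠ 0 := by
    have h2 := Fintype.one_lt_card (α := F)
    have h3 := Nat.le_of_dvd (by omega) hmq
    exact (Nat.div_pos h3 hm).ne'
  rw [zero_pow h1]
  intro h
  have h2 : φ ζ ≠ 0 := hζ.ne_zero hm.ne'
  exact pow_ne_zero _ h2 h.symm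

/-- The symbol of a nonzero element is a power of `ζ`. -/
theorem tw_symbol (hm : 0 < m) (hζ : IsPrimitiveRoot (φ ζ) m) (hmq : m ∣ Fintype.card F - 1)
    {y : F} (hy : y ≠ 0) : ∃ j : ℕ, residueSymbol m ζ φ y = ζ ^ j := by
  classical
  have h1 : (y ^ ((Fintype.card F - 1) / m)) ^ m = 1 := by
    rw [← pow_mul, Nat.div_mul_cancel hmq]
    exact FiniteField.pow_card_sub_one_eq_one y hy
  have : NeZero m := ⟨hm.ne'⟩
  obtain ⟨i, hi, hi2⟩ := hζ.eq_pow_of_pow_eq_one h1
  refine ⟨i, ?_⟩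
  unfold residueSymbol
  rw [Finset.sum_eq_single (⟨i, hi⟩ : Fin m)]
  · rw [if_pos]
    exact hi2.symm
  · intro j _ hj
    rw [if_neg]
    rw [← hi2]
    intro h
    apply hj
    apply Fin.ext
    exact (hζ.pow_inj hi j.2 h).symm
  · intro h
    exact absurd (Finset.mem_univ _) h

end symbol

/-- The sum of the symbols and the number of points are congruent, over every finite field. -/
theorem tw_strata {K : Type} [Field K] {p a : ℕ} (hp : p.Prime) {ζ : 𝓞 K}
    (hζ : IsPrimitiveRoot ζ (p ^ a))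
    {C : Type} [NormedField C] [IsUltrametricDist C] (hp1 : ‖(p : C)‖ < 1)
    (ι : K →+* C) {s : ℕ} (S : Fin s → Stratum K) {F : Type} [Field F] [Fintype F] (φ : 𝓞 K →+* F)
    (hφ : IsPrimitiveRoot (φ ζ) (p ^ a)) (hmq : p ^ a ∣ Fintype.card F - 1) :
    ‖ι (strataSum (p ^ a) ζ φ S : 𝓞 K) - ((strataCard φ S : ℤ) : C)‖ < 1 := by
  classical
  let g : 𝓞 K →+* C := ι.comp (algebraMap (𝓞 K) K)
  have hm0 : 0 < p ^ a := pow_pos hp.pos a
  have h1 : ∀ i, ‖g (∑ x : Fin (S i).M → F,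
      residueSymbol (p ^ a) ζ φ ((S i).G.eval₂ φ x)) -
      ((Nat.card {x : Fin (S i).M → F // (S i).G.eval₂ φ x ≠ 0} : ℤ) : C)‖ < 1 := by
    intro i
    have h2 : ((Nat.card {x : Fin (S i).M → F // (S i).G.eval₂ φ x ≠ 0} : ℤ) : C) =
        ∑ x : Fin (S i).M → F, if (S i).G.eval₂ φ x ≠ 0 then (1 : C) else 0 := by
      rw [Nat.card_eq_fintype_card, Fintype.card_subtype, Finset.card_filter]
      push_cast
      rfl
    rw [h2, map_sum, ← Finset.sum_sub_distrib]
    apply Pool.Agent.TT.gn_sum_lt _ _ zero_lt_one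
    intro x _
    by_cases hx : (S i).G.eval₂ φ x = 0
    · rw [if_neg (by rw [not_not]; exact hx), hx, tw_symbol_zero hm0 hφ hmq, map_zero, sub_zero,
        norm_zero]
      exact zero_lt_one
    · obtain ⟨j, hj⟩ := tw_symbol hm0 hφ hmq hx
      rw [if_pos hx, hj]
      exact er_zeta ι hp hp1 hζ.pow_eq_one j
  have h3 : ι (strataSum (p ^ a) ζ φ S : 𝓞 K) - ((strataCard φ S : ℤ) : C) =
      ∑ i, ((S i).c : C) * (g (∑ x : Fin (S i).M → F,
        residueSymbol (p ^ a) ζ φ ((S i).G.eval₂ φ x)) -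
        ((Nat.card {x : Fin (S i).M → F // (S i).G.eval₂ φ x ≠ 0} : ℤ) : C)) := by
    change g (strataSum (p ^ a) ζ φ S) - _ = _
    unfold strataSum strataCard
    rw [map_sum, Int.cast_sum, ← Finset.sum_sub_distrib]
    apply Finset.sum_congr rfl
    intro i _
    rw [map_mul, map_intCast, Int.cast_mul, mul_sub]
  rw [h3]
  apply Pool.Agent.TT.gn_sum_lt _ _ zero_lt_one
  intro i _
  rw [norm_mul]
  exact lt_of_le_of_lt (mul_le_of_le_one_left (norm_nonneg _) (gr_int_le _)) (h1 i)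

/-- The roots of the characteristic polynomial of a power of an operator. -/
theorem tw_pow {k V : Type} [Field k] [CharZero k] [IsAlgClosed k] [AddCommGroup V] [Module k V]
    [FiniteDimensional k V] (A : Module.End k V) (M : ℕ) :
    (A ^ M).charpoly.roots = A.charpoly.roots.map (fun x => x ^ M) := by
  have hs : ∀ A : Module.End k V, A.charpoly.roots.card = Module.finrank k V := by
    intro A
    rw [← (IsAlgClosed.splits A.charpoly).natDegree_eq_card_roots, LinearMap.charpoly_natDegree]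
  apply tv_multiset
  · rw [Multiset.card_map, hs, hs]
  · intro r _
    rw [← tu_trace, ← pow_mul, tu_trace, Multiset.map_map]
    congr 1
    apply Multiset.map_congr rfl
    intro x _
    simp only [Function.comp_apply]
    rw [← pow_mul]

/-- **A family with integral power sums reduces to the roots of a characteristic polynomial.** -/
theorem tw_roots {C k : Type} [Field C] [Field k] [IsAlgClosed k]
    (A : ValuationSubring C) (red : A →+* k) {d : ℕ} (x' : Fin d → C)
    (N : Matrix (Fin d) (Fin d) k)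
    (hD : ∀ j : ℕ, 1 ≤ j → j ≤ d → (j : C) ≠ 0 ∧ ((j : C))⁻¹ ∈ A)
    (h : ∀ r, 1 ≤ r → r ≤ d → ∃ t : A, (t : C) = ∑ i, x' i ^ r ∧ red t = (N ^ r).trace) :
    ∃ x : Fin d → A, (∀ i, (x i : C) = x' i) ∧
      N.charpoly.roots = Finset.univ.val.map (fun i => red (x i)) := by
  classical
  have hs : N.charpoly.roots.card = N.charpoly.natDegree :=
    (IsAlgClosed.splits N.charpoly).natDegree_eq_card_roots.symm
  have hnd : N.charpoly.natDegree = d := by
    rw [Matrix.charpoly_natDegree_eq_dim, Fintype.card_fin]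
  obtain ⟨d₂, y, hy⟩ := Pool.Agent.TB.np_family N.charpoly.roots
  have h1 := tu_esymm A.toSubring red x' y d hD (by
    intro r hr hr'
    obtain ⟨t, h1, h2⟩ := h r hr hr'
    refine ⟨t, h1, ?_⟩
    rw [h2, tu_mtrace, ← hy, Multiset.map_map]
    rfl)
  rw [hy] at h1
  have h' : ∀ j, ∃ e : A, j ≤ d → (e : C) = (Finset.univ.val.map x').esymm j ∧
      red e = N.charpoly.roots.esymm j := by
    intro j
    by_cases hj : j ≤ d
    · obtain ⟨e, he⟩ := h1 j hj
      exact ⟨e, fun _ => he⟩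
    · exact ⟨0, fun h => absurd h hj⟩
  choose e he using h'
  have key : ∀ {k : Type} [Field k] (ι : A →+* k) (s : Multiset k), s.card = d →
      (∀ j ≤ d, ι (e j) = s.esymm j) → (s.map fun z => X - Polynomial.C z).prod =
        (∑ j ∈ Finset.range (d + 1),
          (-1) ^ j * (Polynomial.C (e j) * X ^ (d - j)) : A[X]).map ι := by
    intro k _ ι s hs hM
    rw [Multiset.prod_X_sub_X_eq_sum_esymm, hs, Polynomial.map_sum]
    apply Finset.sum_congr rfl
    intro j hj
    rw [Finset.mem_range] at hj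
    rw [Polynomial.map_mul, Polynomial.map_mul, Polynomial.map_pow, Polynomial.map_neg,
      Polynomial.map_one, Polynomial.map_C, Polynomial.map_pow, Polynomial.map_X,
      hM j (by omega)]
  set P : A[X] := ∑ j ∈ Finset.range (d + 1),
    (-1) ^ j * (Polynomial.C (e j) * X ^ (d - j)) with hP
  have hPM : ((Finset.univ.val.map x').map fun z => X - Polynomial.C z).prod = P.map A.subtype :=
    key A.subtype _ (by rw [Multiset.card_map, Finset.card_val, Finset.card_univ,
      Fintype.card_fin]) fun j hj => (he j hj).1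
  have hPN : N.charpoly = P.map red := by
    rw [← key red N.charpoly.roots (by rw [hs, hnd]) fun j hj => (he j hj).2]
    exact (IsAlgClosed.splits N.charpoly).eq_prod_roots_of_monic (Matrix.charpoly_monic N)
  have hinj : Function.Injective A.subtype := Subtype.val_injective
  have hPmonic : P.Monic := by
    apply Polynomial.monic_of_injective hinj
    rw [← hPM]
    exact Polynomial.monic_multiset_prod_of_monic _ _ fun z _ => Polynomial.monic_X_sub_C z
  have hint : ∀ i, ∃ z : A, (z : C) = x' i := by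
    intro i
    have h3 : IsIntegral A (x' i) := by
      refine ⟨P, hPmonic, ?_⟩
      have h4 : (P.map A.subtype).eval (x' i) = 0 := by
        rw [← hPM, Polynomial.eval_multiset_prod, Multiset.prod_eq_zero_iff, Multiset.mem_map]
        refine ⟨X - Polynomial.C (x' i), ?_, ?_⟩
        · rw [Multiset.mem_map]
          exact ⟨x' i, Multiset.mem_map.mpr ⟨i, Finset.mem_univ i, rfl⟩, rfl⟩
        · rw [Polynomial.eval_sub, Polynomial.eval_X, Polynomial.eval_C, sub_self]
      rw [Polynomial.eval_map] at h4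
      exact h4
    obtain ⟨z, hz⟩ := IsIntegrallyClosed.isIntegral_iff.mp h3
    exact ⟨z, hz⟩
  choose x hx using hint
  refine ⟨x, hx, ?_⟩
  have hQ : P = ((Finset.univ.val.map x).map fun z => X - Polynomial.C z).prod := by
    apply Polynomial.map_injective A.subtype hinj
    rw [← hPM, Polynomial.map_multiset_prod, Multiset.map_map, Multiset.map_map, Multiset.map_map]
    congr 1
    apply Multiset.map_congr rfl
    intro i _
    simp only [Function.comp_apply, Polynomial.map_sub, Polynomial.map_X, Polynomial.map_C]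
    rw [← hx i]
    rfl
  rw [hPN, hQ, Polynomial.map_multiset_prod, Multiset.map_map, Multiset.map_map]
  have h3 : (Finset.univ.val.map ((Polynomial.map red ∘ fun z => X - Polynomial.C z) ∘ x)) =
      (Finset.univ.val.map fun i => red (x i)).map fun z => X - Polynomial.C z := by
    rw [Multiset.map_map]
    apply Multiset.map_congr rfl
    intro i _
    simp only [Function.comp_apply, Polynomial.map_sub, Polynomial.map_X, Polynomial.map_C]
  rw [h3, Polynomial.roots_multiset_prod_X_sub_C]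

/-- **Theorem V.** The number of Tate classes is bounded by the number of residual eigenvalues of
small order. -/
theorem tw_main {K : Type} [Field K] [NumberField K] [Algebra K Qbar] {p a : ℕ} [hp : Fact p.Prime]
    {ζ : 𝓞 K} (hζ : IsPrimitiveRoot ζ (p ^ a)) (ha : 0 < a) {s : ℕ} (S : Fin s → Stratum K)
    {k : Type} [Field k] [CharP k p] [IsAlgClosed k] {d : ℕ} (hd : d < p)
    (r : (Qbar ≃ₐ[K] Qbar) →* Matrix (Fin d) (Fin d) k)
    (hr : IsOpen (r.ker : Set (Qbar ≃ₐ[K] Qbar))) (hrT : CardTraces (fun σ => (r σ).trace) S)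
    {ℓ : ℕ} [Fact ℓ.Prime] (il : K →+* PadicAlgCl ℓ) {V : Type} [AddCommGroup V]
    [Module (PadicAlgCl ℓ) V] [Module.Finite (PadicAlgCl ℓ) V]
    (hV : Module.finrank (PadicAlgCl ℓ) V = d)
    (π : Representation (PadicAlgCl ℓ) (Qbar ≃ₐ[K] Qbar) V)
    (hπ : SumTraces (fun σ => LinearMap.trace (PadicAlgCl ℓ) V (π σ)) il (p ^ a) ζ S)
    (j : ℕ) (H : Subgroup (Qbar ≃ₐ[K] Qbar)) (hH : IsOpen (H : Set (Qbar ≃ₐ[K] Qbar)))
    (W₁ W₂ : Submodule (PadicAlgCl ℓ) V)
    (hTate : ∀ σ ∈ H, ∀ x ∈ W₂, cyc ℓ σ ^ j • π σ x - x ∈ W₁) (g : Qbar ≃ₐ[K] Qbar) :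
    Module.finrank (PadicAlgCl ℓ) W₂ ≤ Module.finrank (PadicAlgCl ℓ) W₁ + smallEig (r g) := by
  classical
  have hac : Algebra.IsAlgebraic K Qbar := by
    have : Algebra.IsAlgebraic ℚ Qbar := AlgebraicClosure.isAlgebraic ℚ
    exact Algebra.IsAlgebraic.tower_top (K := ℚ) K
  have hgal : IsGalois K Qbar := by
    have : Algebra.IsSeparable K Qbar := inferInstance
    have : Normal K Qbar := by
      have : IsAlgClosed Qbar := inferInstance
      have : IsAlgClosure K Qbar := ⟨this, hac⟩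
      exact IsAlgClosure.normal K Qbar
    exact {}
  obtain ⟨B, hB⟩ := hrT
  obtain ⟨B', hB'⟩ := hπ
  have hU1 : {σ : Qbar ≃ₐ[K] Qbar | r σ⁻¹ = r g} ∈ 𝓝 g⁻¹ := by
    have h1 : (fun σ : Qbar ≃ₐ[K] Qbar => g * σ) ⁻¹' (r.ker : Set (Qbar ≃ₐ[K] Qbar)) ∈ 𝓝 g⁻¹ := by
      apply (hr.preimage (continuous_const_mul g)).mem_nhds
      rw [Set.mem_preimage, mul_inv_cancel]
      exact Subgroup.one_mem _
    apply Filter.mem_of_superset h1
    intro σ hσ
    rw [Set.mem_preimage, SetLike.mem_coe, MonoidHom.mem_ker, map_mul] at hσ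
    rw [Set.mem_ofPred_eq]
    have h2 : r σ * r σ⁻¹ = 1 := by rw [← map_mul, mul_inv_cancel, map_one]
    calc r σ⁻¹ = r g * r σ * r σ⁻¹ := by rw [hσ, one_mul]
      _ = r g := by rw [mul_assoc, h2, mul_one]
  obtain ⟨q, hq, hqB, P, hP, hqP, σ, hσ1, hσ⟩ :=
    fb_dense g⁻¹ _ hU1 (B ∪ (B' ∪ (Finset.range (p ^ a + 1) ∪ {ℓ})))
  rw [Finset.mem_union, Finset.mem_union, Finset.mem_union, Finset.mem_range,
    Finset.mem_singleton, not_or, not_or, not_or] at hqB
  obtain ⟨hqB1, hqB2, hqB3, hql⟩ := hqB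
  rw [Set.mem_ofPred_eq] at hσ1
  have hqF : Fact q.Prime := ⟨hq⟩
  obtain ⟨φp, hφp, _⟩ := ft_phi hq hP hqP hσ
  have hm0 : 0 < p ^ a := pow_pos hp.out.pos a
  obtain ⟨hζ', hmq⟩ := rs_reduce hq hm0 (by omega) hζ hP hqP φp hφp
  have hdvd : p ∣ q - 1 := (dvd_pow_self p ha.ne').trans hmq
  have hqk : (q : k) = 1 := by
    have h1 : ((q - 1 : ℕ) : k) = 0 := (CharP.cast_eq_zero_iff k p _).mpr hdvd
    rw [Nat.cast_sub hq.one_le, sub_eq_zero, Nat.cast_one] at h1
    exact h1
  have hq0 : (q : PadicAlgCl ℓ) ≠ 0 := by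
    have := hq.ne_zero
    exact_mod_cast this
  -- embeddings
  let ip : K →+* ℂ_[p] := (IsAlgClosed.lift : K →ₐ[ℚ] ℂ_[p]).toRingHom
  -- the traces of the powers
  obtain ⟨t, n, ht⟩ : ∃ (t : ℕ → IntermediateField.adjoin ℚ {(ζ : K)}) (n : ℕ → ℤ),
      ∀ r' : ℕ, 1 ≤ r' →
      (LinearMap.trace (PadicAlgCl ℓ) V (π (σ⁻¹ ^ r')) = il (t r' : K) ∧
        (r (σ⁻¹ ^ r')).trace = (n r' : k) ∧ ‖ip (t r' : K) - ((n r' : ℤ) : ℂ_[p])‖ < 1) := by
    let _ : ∀ r, Fintype (GaloisField q r) := fun r => Fintype.ofFinite _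
    have hcardF : ∀ r, 1 ≤ r → Fintype.card (GaloisField q r) = q ^ r := by
      intro r hr
      rw [← Nat.card_eq_fintype_card]
      exact GaloisField.card q r (by omega)
    let φ : ∀ r, 𝓞 K →+* GaloisField q r := fun r =>
      (algebraMap (ZMod q) (GaloisField q r)).comp φp
    have hφ0 : ∀ r (x : 𝓞 K), φ r x = 0 ↔ algebraMap (𝓞 K) (𝓞 Qbar) x ∈ P := by
      intro r x
      rw [← hφp]
      exact map_eq_zero_iff _ (algebraMap (ZMod q) (GaloisField q r)).injective
    refine ⟨fun r => ⟨_, tu_sum_mem (p ^ a) ζ (φ r) S⟩, fun r => strataCard (φ r) S, ?_⟩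
    intro r' hr'
    have hfr : ∀ x y : 𝓞 Qbar, (y : Qbar) = (σ ^ r') x →
        y - x ^ Fintype.card (GaloisField q r') ∈ P := by
      rw [hcardF r' hr']
      exact pl_frob_pow hσ r'
    rw [inv_pow]
    refine ⟨hB' q hq hqB2 P hP hqP (GaloisField q r') (φ r') (hφ0 r') (σ ^ r') hfr,
      hB q hq hqB1 P hP hqP (GaloisField q r') (φ r') (hφ0 r') (σ ^ r') hfr, ?_⟩
    apply tw_strata hp.out hζ (norm_p_lt p) ip S (φ r')
    · exact hζ'.map_of_injective (algebraMap (ZMod q) (GaloisField q r')).injective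
    · rw [hcardF r' hr']
      have h1 := Nat.sub_dvd_pow_sub_pow q 1 r'
      rw [one_pow] at h1
      exact hmq.trans h1
  -- a power in the open subgroup
  have hfi : H.FiniteIndex :=
    haveI := H.quotient_finite_of_isOpen hH
    Subgroup.finiteIndex_of_finite_quotient
  obtain ⟨M, hM, -, hMH⟩ := Subgroup.exists_pow_mem_of_index_ne_zero hfi.index_ne_zero σ⁻¹
  have hcyc : cyc ℓ (σ⁻¹ ^ M) = ((q : PadicAlgCl ℓ) ^ M)⁻¹ := by
    have h4 : cyc ℓ σ⁻¹ * (q : PadicAlgCl ℓ) = 1 := by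
      rw [← cyc_frob hq (Ne.symm hql) hP hqP hσ, ← tv_cyc_mul, inv_mul_cancel, tv_cyc_one]
    have h3 : ∀ n : ℕ, cyc ℓ (σ⁻¹ ^ n) * (q : PadicAlgCl ℓ) ^ n = 1 := by
      intro n
      induction n with
      | zero => rw [pow_zero, pow_zero, tv_cyc_one, mul_one]
      | succ n ih =>
        rw [pow_succ, tv_cyc_mul, pow_succ]
        calc cyc ℓ (σ⁻¹ ^ n) * cyc ℓ σ⁻¹ * ((q : PadicAlgCl ℓ) ^ n * q) =
            (cyc ℓ (σ⁻¹ ^ n) * (q : PadicAlgCl ℓ) ^ n) * (cyc ℓ σ⁻¹ * q) := by ring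
          _ = 1 := by rw [ih, h4, one_mul]
    exact eq_inv_of_mul_eq_one_left (h3 M)
  -- the multiplicity
  set c : PadicAlgCl ℓ := ((q : PadicAlgCl ℓ) ^ M) ^ j with hc
  have hmult : Module.finrank (PadicAlgCl ℓ) W₂ ≤ Module.finrank (PadicAlgCl ℓ) W₁ +
      (π (σ⁻¹ ^ M)).charpoly.rootMultiplicity c := by
    apply tv_sub
    intro x hx
    have h1 := hTate _ hMH x hx
    rw [hcyc] at h1
    have h2 := W₁.smul_mem c h1
    have h3 : c * (((q : PadicAlgCl ℓ) ^ M)⁻¹) ^ j = 1 := by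
      rw [hc, ← mul_pow, mul_inv_cancel₀ (pow_ne_zero _ hq0), one_pow]
    rw [smul_sub, smul_smul, h3, one_smul] at h2
    exact h2
  obtain ⟨d₁, y, hy⟩ := np_family (π σ⁻¹).charpoly.roots
  have hd₁ : d₁ = d := by
    have h1 := congrArg Multiset.card hy
    rw [Multiset.card_map, Finset.card_val, Finset.card_univ, Fintype.card_fin,
      ← (IsAlgClosed.splits (π σ⁻¹).charpoly).natDegree_eq_card_roots,
      LinearMap.charpoly_natDegree, hV] at h1
    exact h1
  subst hd₁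
  have hmult3 : (π (σ⁻¹ ^ M)).charpoly.rootMultiplicity c =
      (Finset.univ.filter fun i : Fin d₁ => y i ^ M = c).card := by
    have h3 : π (σ⁻¹ ^ M) = π σ⁻¹ ^ M := map_pow π _ _
    rw [← Polynomial.count_roots, h3, tw_pow, ← hy, Multiset.map_map, Multiset.count_map]
    rw [Finset.card_def, Finset.filter_val]
    congr 1
    apply Multiset.filter_congr
    intro i _
    exact eq_comm
  -- the characteristic polynomial over `ℚ(ζ)`
  let E : IntermediateField ℚ K := IntermediateField.adjoin ℚ {(ζ : K)}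
  let ι : E →+* PadicAlgCl ℓ := il.comp (algebraMap E K)
  have hinj2 : Function.Injective (π σ⁻¹) := by
    intro x y hxy
    have h3 : π σ (π σ⁻¹ x) = π σ (π σ⁻¹ y) := by rw [hxy]
    rw [← Module.End.mul_apply, ← Module.End.mul_apply, ← map_mul, mul_inv_cancel, map_one,
      Module.End.one_apply, Module.End.one_apply] at h3
    exact h3
  have htr1 : ∀ r, 1 ≤ r → LinearMap.trace (PadicAlgCl ℓ) V ((π σ⁻¹) ^ r) = ι (t r) := by
    intro r hr
    have h3 : π (σ⁻¹ ^ r) = π σ⁻¹ ^ r := map_pow π _ _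
    have h4 := (ht r hr).1
    rw [h3] at h4
    exact h4
  obtain ⟨f, hf, -⟩ := np_charpoly ι ι (π σ⁻¹) (π σ⁻¹) hinj2 hinj2 t htr1 htr1
  have hf0 : f ≠ 0 := by
    rintro rfl
    rw [Polynomial.map_zero] at hf
    exact (LinearMap.charpoly_monic (π σ⁻¹)).ne_zero hf
  have hfd : f.natDegree = d₁ := by
    have h3 := congrArg Polynomial.natDegree hf
    rw [LinearMap.charpoly_natDegree, hV,
      Polynomial.natDegree_map_eq_of_injective ι.injective] at h3
    exact h3.symm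
  have hroot : ∀ i, (π σ⁻¹).charpoly.IsRoot (y i) := by
    intro i
    rw [← Polynomial.mem_roots (LinearMap.charpoly_monic _).ne_zero, ← hy, Multiset.mem_map]
    exact ⟨i, Finset.mem_univ i, rfl⟩
  -- the embedding of the algebraic numbers
  letI : Algebra K (PadicAlgCl ℓ) := il.toAlgebra
  letI : Algebra K ℂ_[p] := ip.toAlgebra
  let R : IntermediateField K (PadicAlgCl ℓ) := algebraicClosure K (PadicAlgCl ℓ)
  have hyR : ∀ i, y i ∈ R := by
    intro i
    change y i ∈ algebraicClosure K (PadicAlgCl ℓ)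
    rw [mem_algebraicClosure_iff]
    refine ⟨f.map (algebraMap E K), (Polynomial.map_ne_zero_iff (algebraMap E K).injective).mpr hf0,
      ?_⟩
    have h3 := hroot i
    rw [hf, Polynomial.IsRoot.def, Polynomial.eval_map] at h3
    rw [Polynomial.aeval_def, Polynomial.eval₂_map]
    exact h3
  let θ : R →ₐ[K] ℂ_[p] := IsAlgClosed.lift
  have hθ : ∀ z : K, θ (algebraMap K R z) = ip z := fun z => θ.commutes z
  obtain ⟨red, hred0, -⟩ := res_exists p k
  obtain ⟨x, hx1, hx2⟩ := tw_roots (nv ℂ_[p]) red (fun i => θ ⟨y i, hyR i⟩) (r σ⁻¹) (by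
    intro j hj1 hj2
    have h3 := tu_nat_norm (p := p) hj1 (by omega)
    refine ⟨?_, ?_⟩
    · intro h0
      rw [h0, norm_zero] at h3
      exact zero_ne_one h3
    · change ‖((j : ℂ_[p]))⁻¹‖ ≤ 1
      rw [norm_inv, h3, inv_one]) (by
    intro r' hr' _
    obtain ⟨ht1, ht2, ht3⟩ := ht r' hr'
    have h3 : ∑ i, (θ ⟨y i, hyR i⟩) ^ r' = ip (t r' : K) := by
      rw [← hθ]
      have h4 : (algebraMap K R (t r' : K)) = ∑ i, (⟨y i, hyR i⟩ : R) ^ r' := by
        apply Subtype.ext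
        have h5 : ((∑ i, (⟨y i, hyR i⟩ : R) ^ r' : R) : PadicAlgCl ℓ) = ∑ i, y i ^ r' := by
          change R.val (∑ i, (⟨y i, hyR i⟩ : R) ^ r') = _
          rw [map_sum]
          rfl
        rw [h5]
        have h6 : ((algebraMap K R (t r' : K) : R) : PadicAlgCl ℓ) = il (t r' : K) := rfl
        rw [h6, ← ht1]
        have h7 : π (σ⁻¹ ^ r') = π σ⁻¹ ^ r' := map_pow π _ _
        rw [h7, tu_trace, ← hy, Multiset.map_map]
        rfl
      rw [h4, map_sum]
      simp only [map_pow]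
    have hn1 : ‖((n r' : ℤ) : ℂ_[p])‖ ≤ 1 := gr_int_le _
    have hn2 : ‖ip (t r' : K)‖ ≤ 1 := gr_le_of_close hn1 ht3
    refine ⟨⟨ip (t r' : K), hn2⟩, h3.symm, ?_⟩
    have h7 : r (σ⁻¹ ^ r') = r σ⁻¹ ^ r' := map_pow r _ _
    rw [← h7, ht2]
    have h8 : (⟨ip (t r' : K), hn2⟩ : nv ℂ_[p]) = ((n r' : ℤ) : nv ℂ_[p]) +
        (⟨ip (t r' : K), hn2⟩ - ((n r' : ℤ) : nv ℂ_[p])) := by ring
    have h9 : red (⟨ip (t r' : K), hn2⟩ - ((n r' : ℤ) : nv ℂ_[p])) = 0 := by
      apply hred0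
      have h10 : (((⟨ip (t r' : K), hn2⟩ : nv ℂ_[p]) - ((n r' : ℤ) : nv ℂ_[p]) : nv ℂ_[p]) :
          ℂ_[p]) = ip (t r' : K) - ((n r' : ℤ) : ℂ_[p]) := by
        have h11 : ((((n r' : ℤ) : nv ℂ_[p])) : ℂ_[p]) = ((n r' : ℤ) : ℂ_[p]) :=
          map_intCast (nv ℂ_[p]).subtype (n r')
        rw [← h11]
        rfl
      rw [h10]
      exact ht3
    rw [h8, map_add, h9, add_zero, map_intCast])
  have hmult4 : smallEig (r g) = (Finset.univ.filter fun i : Fin d₁ =>
      ∃ n : ℕ, 0 < n ∧ n.totient ≤ d₁ ∧ (red (x i)) ^ n = 1).card := by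
    unfold smallEig
    rw [← hσ1, hx2, Multiset.filter_map, Multiset.card_map, Finset.card_def, Finset.filter_val]
    rfl
  refine hmult.trans ?_
  rw [hmult3, hmult4]
  refine Nat.add_le_add_left (Finset.card_le_card ?_) _
  intro i hi
  rw [Finset.mem_filter] at hi ⊢
  refine ⟨hi.1, ?_⟩
  -- one root
  set u : PadicAlgCl ℓ := ((q : PadicAlgCl ℓ) ^ j)⁻¹ * y i with hu
  have huM : u ^ M = 1 := by
    rw [hu, mul_pow, hi.2, hc, inv_pow, ← pow_mul, ← pow_mul, mul_comm j M]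
    exact inv_mul_cancel₀ (pow_ne_zero _ hq0)
  have huy : (q : PadicAlgCl ℓ) ^ j * u = y i := by
    rw [hu, ← mul_assoc, mul_inv_cancel₀ (pow_ne_zero _ hq0), one_mul]
  let z : PadicAlgCl ℓ := il (ζ : K)
  have hz : IsPrimitiveRoot z (p ^ a) := by
    have h3 : IsPrimitiveRoot (algebraMap (𝓞 K) K ζ) (p ^ a) :=
      hζ.map_of_injective (RingOfIntegers.coe_injective)
    exact h3.map_of_injective il.injective
  let L : IntermediateField ℚ (PadicAlgCl ℓ) := IntermediateField.adjoin ℚ {z}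
  have hEL : ∀ e : E, ι e ∈ L := by
    intro e
    have h3 : il.toRatAlgHom (e : K) ∈ (IntermediateField.adjoin ℚ {(ζ : K)}).map
        il.toRatAlgHom := ⟨(e : K), e.2, rfl⟩
    rw [IntermediateField.adjoin_map, Set.image_singleton] at h3
    exact h3
  let κ : E →+* L := ι.codRestrict L.toSubring hEL
  have hκ : (algebraMap L (PadicAlgCl ℓ)).comp κ = ι := RingHom.ext fun e => rfl
  have hxr : ((f.map κ).scaleRoots ((q : L)⁻¹ ^ j)).eval₂ (algebraMap L (PadicAlgCl ℓ)) u = 0 := by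
    have h3 : (f.map κ).eval₂ (algebraMap L (PadicAlgCl ℓ)) ((q : PadicAlgCl ℓ) ^ j * u) = 0 := by
      rw [Polynomial.eval₂_map, hκ, ← Polynomial.eval_map, ← hf, huy]
      exact hroot i
    have h4 := Polynomial.scaleRoots_eval₂_eq_zero (algebraMap L (PadicAlgCl ℓ))
      (s := (q : L)⁻¹ ^ j) h3
    have h5 : algebraMap L (PadicAlgCl ℓ) ((q : L)⁻¹ ^ j) * ((q : PadicAlgCl ℓ) ^ j * u) = u := by
      rw [map_pow, map_inv₀, map_natCast, ← mul_assoc, ← mul_pow, inv_mul_cancel₀ hq0, one_pow,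
        one_mul]
    rw [h5] at h4
    exact h4
  obtain ⟨n', b, hn', hnd, hun⟩ := tu_order hp.out hz L rfl
    (f := (f.map κ).scaleRoots ((q : L)⁻¹ ^ j)) (d := d₁)
    (Polynomial.scaleRoots_ne_zero ((Polynomial.map_ne_zero_iff κ.injective).mpr hf0) _)
    (by rw [Polynomial.natDegree_scaleRoots,
          Polynomial.natDegree_map_eq_of_injective κ.injective, hfd]) hxr hM huM
  refine ⟨n', hn', hnd, ?_⟩
  have huR : u ∈ R := by
    rw [hu]
    exact mul_mem (inv_mem (pow_mem (natCast_mem R q) j)) (hyR i)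
  set v : ℂ_[p] := θ ⟨u, huR⟩ with hv
  have hvM : v ^ M = 1 := by
    rw [hv, ← map_pow]
    have h3 : (⟨u, huR⟩ : R) ^ M = 1 := Subtype.ext huM
    rw [h3, map_one]
  have hvn : v ^ (n' * p ^ b) = 1 := by
    rw [hv, ← map_pow]
    have h3 : (⟨u, huR⟩ : R) ^ (n' * p ^ b) = 1 := Subtype.ext hun
    rw [h3, map_one]
  have hxv : (x i : ℂ_[p]) = (q : ℂ_[p]) ^ j * v := by
    rw [hx1 i, hv]
    have h3 : (⟨y i, hyR i⟩ : R) = (q : R) ^ j * ⟨u, huR⟩ := Subtype.ext huy.symm
    rw [h3, map_mul, map_pow, map_natCast]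
  have hvA : v ∈ nv ℂ_[p] := by
    change ‖v‖ ≤ 1
    rw [tu_norm_one hM hvM]
  let vA : nv ℂ_[p] := ⟨v, hvA⟩
  have h3 : red (x i) = red vA := by
    have h4 : x i = (q : nv ℂ_[p]) ^ j * vA := by
      apply Subtype.ext
      rw [hxv]
      rfl
    rw [h4, map_mul, map_pow, map_natCast, hqk, one_pow, one_mul]
  have h4 : (red vA) ^ (n' * p ^ b) = 1 := by
    rw [← map_pow]
    have h5 : vA ^ (n' * p ^ b) = 1 := by
      apply Subtype.ext
      exact hvn
    rw [h5, map_one]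
  have h5 : ((red vA) ^ n' - 1) ^ p ^ b = 0 := by
    rw [sub_pow_char_pow, one_pow, ← pow_mul, h4, sub_self]
  rw [h3]
  exact sub_eq_zero.mp (pow_eq_zero_iff (pow_pos hp.out.pos b).ne' |>.mp h5)

end Pool.Agent.TU
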