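import Pool.Agent.Lib_helper61.TU.Small

/-!
# The number of Tate classes and the eigenvalues of small order of a residual representation
-/

set_option autoImplicit false

namespace Pool.Agent.TU

open NumberField Topology Polynomial
open Pool.Agent.TT Pool.Agent.TB Pool.Agent.TF Pool.Agent.RF Pool.Agent.TBL

/-- Multisets of the same size with the same power sums are equal. -/
theorem tv_multiset {k : Type} [Field k] [CharZero k] (s t : Multiset k) (hc : s.card = t.card)
    (h : ∀ r, 1 ≤ r → (s.map fun x => x ^ r).sum = (t.map fun x => x ^ r).sum) : s = t := by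
  obtain ⟨d₁, x, hx⟩ := np_family s
  obtain ⟨d₂, y, hy⟩ := np_family t
  have h1 := np_esymm (RingHom.id k) (RingHom.id k) x y (fun r => (s.map fun x => x ^ r).sum) (by
    intro r _
    rw [RingHom.id_apply, ← hx, Multiset.map_map]
    rfl) (by
    intro r hr
    rw [RingHom.id_apply, h r hr, ← hy, Multiset.map_map]
    rfl)
  rw [hx, hy] at h1
  have h2 : ∀ j, s.esymm j = t.esymm j := by
    intro j
    obtain ⟨e, he1, he2⟩ := h1 j
    rw [he1, he2]
  have h3 : (s.map fun x => X - C x).prod = (t.map fun x => X - C x).prod := by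
    rw [Multiset.prod_X_sub_X_eq_sum_esymm, Multiset.prod_X_sub_X_eq_sum_esymm, hc]
    apply Finset.sum_congr rfl
    intro j _
    rw [h2 j]
  have h4 := congrArg Polynomial.roots h3
  rwa [Polynomial.roots_multiset_prod_X_sub_C, Polynomial.roots_multiset_prod_X_sub_C] at h4

/-- The roots of the characteristic polynomial of a power. -/
theorem tv_pow {k : Type} [Field k] [CharZero k] [IsAlgClosed k] {d : ℕ}
    (A : Matrix (Fin d) (Fin d) k) (M : ℕ) :
    (A ^ M).charpoly.roots = A.charpoly.roots.map (fun x => x ^ M) := by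
  have hs : ∀ A : Matrix (Fin d) (Fin d) k, A.charpoly.roots.card = d := by
    intro A
    rw [← (IsAlgClosed.splits A.charpoly).natDegree_eq_card_roots,
      Matrix.charpoly_natDegree_eq_dim, Fintype.card_fin]
  apply tv_multiset
  · rw [Multiset.card_map, hs, hs]
  · intro r _
    rw [← tu_mtrace, ← pow_mul, tu_mtrace, Multiset.map_map]
    congr 1
    apply Multiset.map_congr rfl
    intro x _
    simp only [Function.comp_apply]
    rw [← pow_mul]

/-- A subquotient on which `T` is the scalar `c` is not larger than the multiplicity of `c`. -/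
theorem tv_sub {k V : Type} [Field k] [AddCommGroup V] [Module k V] [FiniteDimensional k V]
    (T : Module.End k V) (c : k) (W₁ W₂ : Submodule k V)
    (hT : ∀ x ∈ W₂, T x - c • x ∈ W₁) :
    Module.finrank k W₂ ≤ Module.finrank k W₁ + T.charpoly.rootMultiplicity c := by
  classical
  let S : W₂ →ₗ[k] V := (T - algebraMap k (Module.End k V) c).comp W₂.subtype
  have hS : ∀ x : W₂, S x = T x - c • (x : V) := fun x => rfl
  have h1 := S.finrank_range_add_finrank_ker
  have h2 : Module.finrank k (LinearMap.range S) ≤ Module.finrank k W₁ := by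
    apply Submodule.finrank_mono
    rintro _ ⟨x, rfl⟩
    rw [hS]
    exact hT x x.2
  have h3 : Module.finrank k (LinearMap.ker S) ≤ Module.finrank k (T.eigenspace c) := by
    have h4 : (LinearMap.ker S).map W₂.subtype ≤ T.eigenspace c := by
      rintro _ ⟨x, hx, rfl⟩
      rw [SetLike.mem_coe, LinearMap.mem_ker, hS, sub_eq_zero] at hx
      rw [Module.End.mem_eigenspace_iff]
      exact hx
    have h5 := Submodule.finrank_mono h4
    rwa [Submodule.finrank_map_subtype_eq] at h5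
  have h4 : Module.finrank k (T.eigenspace c) ≤ T.charpoly.rootMultiplicity c := by
    rw [← LinearMap.finrank_maxGenEigenspace_eq]
    apply Submodule.finrank_mono
    exact (T.genEigenspace c).mono le_top
  omega

/-- **The roots of the characteristic polynomial reduce to the roots of the characteristic
polynomial**, with multiplicities. -/
theorem tv_roots {C k : Type} [Field C] [IsAlgClosed C] [Field k] [IsAlgClosed k]
    (A : ValuationSubring C) (red : A →+* k) {d : ℕ} (M : Matrix (Fin d) (Fin d) C)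
    (N : Matrix (Fin d) (Fin d) k)
    (hD : ∀ j : ℕ, 1 ≤ j → j ≤ d → (j : C) ≠ 0 ∧ ((j : C))⁻¹ ∈ A)
    (h : ∀ r, 1 ≤ r → r ≤ d → ∃ t : A, (t : C) = (M ^ r).trace ∧ red t = (N ^ r).trace) :
    ∃ x : Fin d → A, M.charpoly.roots = Finset.univ.val.map (fun i => (x i : C)) ∧
      N.charpoly.roots = Finset.univ.val.map (fun i => red (x i)) := by
  classical
  have hs : ∀ {k : Type} [Field k] [IsAlgClosed k] (M : Matrix (Fin d) (Fin d) k),
      M.charpoly.roots.card = M.charpoly.natDegree := by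
    intro k _ _ M
    exact (IsAlgClosed.splits M.charpoly).natDegree_eq_card_roots.symm
  have hnd : ∀ {k : Type} [Field k] [IsAlgClosed k] (M : Matrix (Fin d) (Fin d) k),
      M.charpoly.natDegree = d := by
    intro k _ _ M
    rw [Matrix.charpoly_natDegree_eq_dim, Fintype.card_fin]
  obtain ⟨d₁, x', hx'⟩ := Pool.Agent.TB.np_family M.charpoly.roots
  obtain ⟨d₂, y, hy⟩ := Pool.Agent.TB.np_family N.charpoly.roots
  have hd₁ : d₁ = d := by
    have h1 := congrArg Multiset.card hx'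
    rw [Multiset.card_map, Finset.card_val, Finset.card_univ, Fintype.card_fin, hs, hnd] at h1
    exact h1
  subst hd₁
  have h1 := tu_esymm A.toSubring red x' y d₁ hD (by
    intro r hr hr'
    obtain ⟨t, h1, h2⟩ := h r hr hr'
    refine ⟨t, ?_, ?_⟩
    · rw [h1, tu_mtrace, ← hx', Multiset.map_map]
      rfl
    · rw [h2, tu_mtrace, ← hy, Multiset.map_map]
      rfl)
  rw [hx', hy] at h1
  have h' : ∀ j, ∃ e : A, j ≤ d₁ → (e : C) = M.charpoly.roots.esymm j ∧
      red e = N.charpoly.roots.esymm j := by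
    intro j
    by_cases hj : j ≤ d₁
    · obtain ⟨e, he⟩ := h1 j hj
      exact ⟨e, fun _ => he⟩
    · exact ⟨0, fun h => absurd h hj⟩
  choose e he using h'
  have key : ∀ {k : Type} [Field k] [IsAlgClosed k] (ι : A →+* k)
      (M : Matrix (Fin d₁) (Fin d₁) k), (∀ j ≤ d₁, ι (e j) = M.charpoly.roots.esymm j) →
      M.charpoly = (∑ j ∈ Finset.range (d₁ + 1),
        Polynomial.monomial j ((-1) ^ (d₁ - j) * e (d₁ - j)) : A[X]).map ι := by
    intro k _ _ ι M hM
    ext j
    rw [Polynomial.coeff_map, Polynomial.finsetSum_coeff]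
    simp only [Polynomial.coeff_monomial]
    rw [Finset.sum_ite_eq' (Finset.range (d₁ + 1)) j]
    by_cases hj : j ≤ d₁
    · rw [if_pos (Finset.mem_range.mpr (by omega)),
        Polynomial.coeff_eq_esymm_roots_of_card (hs M) (by rw [hnd]; exact hj),
        (Matrix.charpoly_monic M).leadingCoeff, one_mul, map_mul, map_pow, map_neg, map_one,
        hM _ (by omega), hnd]
    · rw [if_neg (by rw [Finset.mem_range]; omega), map_zero]
      exact Polynomial.coeff_eq_zero_of_natDegree_lt (by rw [hnd]; omega)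
  set P : A[X] := ∑ j ∈ Finset.range (d₁ + 1),
        Polynomial.monomial j ((-1) ^ (d₁ - j) * e (d₁ - j)) with hP
  have hPM : M.charpoly = P.map A.subtype := key A.subtype M fun j hj => (he j hj).1
  have hPN : N.charpoly = P.map red := key red N fun j hj => (he j hj).2
  have hinj : Function.Injective A.subtype := Subtype.val_injective
  have hPmonic : P.Monic := by
    apply Polynomial.monic_of_injective hinj
    rw [← hPM]
    exact Matrix.charpoly_monic M
  have hint : ∀ i, ∃ z : A, (z : C) = x' i := by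
    intro i
    have h2 : x' i ∈ M.charpoly.roots := by
      rw [← hx', Multiset.mem_map]
      exact ⟨i, Finset.mem_univ i, rfl⟩
    rw [Polynomial.mem_roots (Matrix.charpoly_monic M).ne_zero, hPM, Polynomial.IsRoot.def,
      Polynomial.eval_map] at h2
    have h3 : IsIntegral A (x' i) := ⟨P, hPmonic, h2⟩
    obtain ⟨z, hz⟩ := IsIntegrallyClosed.isIntegral_iff.mp h3
    exact ⟨z, hz⟩
  choose x hx using hint
  refine ⟨x, ?_, ?_⟩
  · rw [← hx']
    apply Multiset.map_congr rfl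
    intro i _
    exact (hx i).symm
  · have hQ : P = ((Finset.univ.val.map x).map fun z => X - Polynomial.C z).prod := by
      apply Polynomial.map_injective A.subtype hinj
      rw [← hPM, Polynomial.map_multiset_prod, Multiset.map_map, Multiset.map_map]
      have h2 := (IsAlgClosed.splits M.charpoly).eq_prod_roots_of_monic (Matrix.charpoly_monic M)
      rw [h2, ← hx', Multiset.map_map]
      congr 1
      apply Multiset.map_congr rfl
      intro i _
      simp only [Function.comp_apply, Polynomial.map_sub, Polynomial.map_X, Polynomial.map_C]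
      rw [← hx i]
      rfl
    rw [hPN, hQ, Polynomial.map_multiset_prod, Multiset.map_map, Multiset.map_map]
    have h3 : (Finset.univ.val.map ((Polynomial.map red ∘ fun z => X - Polynomial.C z) ∘ x)) =
        (Finset.univ.val.map fun i => red (x i)).map fun z => X - Polynomial.C z := by
      rw [Multiset.map_map]
      apply Multiset.map_congr rfl
      intro i _
      simp only [Function.comp_apply, Polynomial.map_sub, Polynomial.map_X, Polynomial.map_C]
    rw [h3, Polynomial.roots_multiset_prod_X_sub_C]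

theorem tv_cyc_mul {K : Type} [Field K] [Algebra K Qbar] {ℓ : ℕ} [Fact ℓ.Prime]
    (σ τ : Qbar ≃ₐ[K] Qbar) : cyc ℓ (σ * τ) = cyc ℓ σ * cyc ℓ τ := by
  unfold cyc
  have h1 : (((σ * τ : Qbar ≃ₐ[K] Qbar)) : Qbar ≃+* Qbar) =
      (σ : Qbar ≃+* Qbar) * (τ : Qbar ≃+* Qbar) := rfl
  rw [h1, map_mul, Units.val_mul, PadicInt.coe_mul, map_mul]

theorem tv_cyc_one {K : Type} [Field K] [Algebra K Qbar] {ℓ : ℕ} [Fact ℓ.Prime] :
    cyc ℓ (1 : Qbar ≃ₐ[K] Qbar) = 1 := by
  unfold cyc
  have h1 : (((1 : Qbar ≃ₐ[K] Qbar)) : Qbar ≃+* Qbar) = 1 := rfl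
  rw [h1, map_one, Units.val_one, PadicInt.coe_one, map_one]

open Classical in
/-- The number of eigenvalues (with multiplicity) of a matrix of size `d` that are roots of unity of
an order `n` with `φ(n) ≤ d`. -/
noncomputable def smallEig {k : Type} [Field k] {d : ℕ} (N : Matrix (Fin d) (Fin d) k) : ℕ :=
  (N.charpoly.roots.filter fun x => ∃ n : ℕ, 0 < n ∧ n.totient ≤ d ∧ x ^ n = 1).card

/-- **The number of Tate classes is bounded by the number of residual eigenvalues of small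
order.** -/
theorem tv_main {K : Type} [Field K] [NumberField K] [Algebra K Qbar] {p a : ℕ} [hp : Fact p.Prime]
    {ζ : 𝓞 K} (hζ : IsPrimitiveRoot ζ (p ^ a)) (ha : 0 < a) {s : ℕ} (S : Fin s → Stratum K)
    (ip : K →+* ℂ_[p]) {d : ℕ} (hd : d < p)
    (ρ : (Qbar ≃ₐ[K] Qbar) →* Matrix (Fin d) (Fin d) ℂ_[p])
    (hρ : Continuous ρ)
    (hT : FrobeniusValues (fun σ => (ρ σ).trace) fun _ _ _ φ =>
      ip (strataSum (p ^ a) ζ φ S : 𝓞 K))
    {k : Type} [Field k] [CharP k p] [IsAlgClosed k]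
    (r : (Qbar ≃ₐ[K] Qbar) →* Matrix (Fin d) (Fin d) k)
    (hr : IsOpen (r.ker : Set (Qbar ≃ₐ[K] Qbar)))
    (hrT : FrobeniusValues (fun σ => (r σ).trace) fun _ _ _ φ => ((strataCard φ S : ℤ) : k))
    {j : ℕ} (g : Qbar ≃ₐ[K] Qbar)
    {ℓ : ℕ} [Fact ℓ.Prime] (il : K →+* PadicAlgCl ℓ) {V : Type} [AddCommGroup V]
    [Module (PadicAlgCl ℓ) V] [Module.Finite (PadicAlgCl ℓ) V]
    (π : Representation (PadicAlgCl ℓ) (Qbar ≃ₐ[K] Qbar) V)
    (hπ : FrobeniusValues (fun σ => LinearMap.trace (PadicAlgCl ℓ) V (π σ)) fun _ _ _ φ =>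
      il (strataSum (p ^ a) ζ φ S : 𝓞 K))
    (H : Subgroup (Qbar ≃ₐ[K] Qbar)) (hH : IsOpen (H : Set (Qbar ≃ₐ[K] Qbar)))
    (W₁ W₂ : Submodule (PadicAlgCl ℓ) V)
    (hTate : ∀ σ ∈ H, ∀ x ∈ W₂, cyc ℓ σ ^ j • π σ x - x ∈ W₁) :
    Module.finrank (PadicAlgCl ℓ) W₂ ≤ Module.finrank (PadicAlgCl ℓ) W₁ + smallEig (r g) := by
  classical
  have hac : Algebra.IsAlgebraic K Qbar := by
    have : Algebra.IsAlgebraic ℚ Qbar := AlgebraicClosure.isAlgebraic ℚ
    exact Algebra.IsAlgebraic.tower_top (K := ℚ) K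
  have hgal : IsGalois K Qbar := by
    have : Algebra.IsSeparable K Qbar := inferInstance
    have : Normal K Qbar := by
      have : IsAlgClosed Qbar := inferInstance
      have : IsAlgClosure K Qbar := ⟨this, hac⟩
      exact IsAlgClosure.normal K Qbar
    exact {}
  have hrd := rd_one hζ S ip ρ hρ hT r hr hrT
  obtain ⟨B, hB⟩ := hT
  obtain ⟨B', hB'⟩ := hπ
  have hU1 : {σ : Qbar ≃ₐ[K] Qbar | r σ⁻¹ = r g} ∈ 𝓝 g⁻¹ := by
    have h1 : (fun σ : Qbar ≃ₐ[K] Qbar => g * σ) ⁻¹' (r.ker : Set (Qbar ≃ₐ[K] Qbar)) ∈ 𝓝 g⁻¹ := by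
      apply (hr.preimage (continuous_const_mul g)).mem_nhds
      rw [Set.mem_preimage, mul_inv_cancel]
      exact Subgroup.one_mem _
    apply Filter.mem_of_superset h1
    intro σ hσ
    rw [Set.mem_preimage, SetLike.mem_coe, MonoidHom.mem_ker, map_mul] at hσ
    rw [Set.mem_ofPred_eq]
    have h2 : r σ * r σ⁻¹ = 1 := by rw [← map_mul, mul_inv_cancel, map_one]
    calc r σ⁻¹ = r g * r σ * r σ⁻¹ := by rw [hσ, one_mul]
      _ = r g := by rw [mul_assoc, h2, mul_one]
  obtain ⟨q, hq, hqB, P, hP, hqP, σ, hσ1, hσ⟩ :=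
    fb_dense g⁻¹ _ hU1 (B ∪ (B' ∪ (Finset.range (p ^ a + 1) ∪ {ℓ})))
  rw [Finset.mem_union, Finset.mem_union, Finset.mem_union, Finset.mem_range,
    Finset.mem_singleton, not_or, not_or, not_or] at hqB
  obtain ⟨hqB1, hqB2, hqB3, hql⟩ := hqB
  rw [Set.mem_ofPred_eq] at hσ1
  have hqF : Fact q.Prime := ⟨hq⟩
  obtain ⟨φ, hφ, hφ2⟩ := ft_phi hq hP hqP hσ
  have hm0 : 0 < p ^ a := pow_pos hp.out.pos a
  obtain ⟨hζ', hmq⟩ := rs_reduce hq hm0 (by omega) hζ hP hqP φ hφ
  have hdvd : p ∣ q - 1 := (dvd_pow_self p ha.ne').trans hmq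
  have hqk : (q : k) = 1 := by
    have h1 : ((q - 1 : ℕ) : k) = 0 := (CharP.cast_eq_zero_iff k p _).mpr hdvd
    rw [Nat.cast_sub hq.one_le, sub_eq_zero, Nat.cast_one] at h1
    exact h1
  -- the traces of the powers
  obtain ⟨t, ht⟩ : ∃ t : ℕ → IntermediateField.adjoin ℚ {(ζ : K)}, ∀ r : ℕ, 1 ≤ r →
      ((ρ (σ⁻¹ ^ r)).trace = ip (t r : K) ∧
        LinearMap.trace (PadicAlgCl ℓ) V (π (σ⁻¹ ^ r)) = il (t r : K)) := by
    obtain ⟨φp, hφp, _⟩ := ft_phi hq hP hqP hσ
    let _ : ∀ r, Fintype (GaloisField q r) := fun r => Fintype.ofFinite _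
    have hcardF : ∀ r, 1 ≤ r → Fintype.card (GaloisField q r) = q ^ r := by
      intro r hr
      rw [← Nat.card_eq_fintype_card]
      exact GaloisField.card q r (by omega)
    let φ : ∀ r, 𝓞 K →+* GaloisField q r := fun r =>
      (algebraMap (ZMod q) (GaloisField q r)).comp φp
    have hφ0 : ∀ r (x : 𝓞 K), φ r x = 0 ↔ algebraMap (𝓞 K) (𝓞 Qbar) x ∈ P := by
      intro r x
      rw [← hφp]
      exact map_eq_zero_iff _ (algebraMap (ZMod q) (GaloisField q r)).injective
    refine ⟨fun r => ⟨_, tu_sum_mem (p ^ a) ζ (φ r) S⟩, ?_⟩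
    intro r hr
    have hfr : ∀ x y : 𝓞 Qbar, (y : Qbar) = (σ ^ r) x →
        y - x ^ Fintype.card (GaloisField q r) ∈ P := by
      rw [hcardF r hr]
      exact pl_frob_pow hσ r
    rw [inv_pow]
    exact ⟨hB q hq hqB1 P hP hqP (GaloisField q r) (φ r) (hφ0 r) (σ ^ r) hfr,
      hB' q hq hqB2 P hP hqP (GaloisField q r) (φ r) (hφ0 r) (σ ^ r) hfr⟩
  -- a power in the open subgroup
  have hfi : H.FiniteIndex :=
    haveI := H.quotient_finite_of_isOpen hH
    Subgroup.finiteIndex_of_finite_quotient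
  obtain ⟨M, hM, -, hMH⟩ := Subgroup.exists_pow_mem_of_index_ne_zero hfi.index_ne_zero σ⁻¹
  have hq0 : (q : ℂ_[p]) ≠ 0 := by
    have := hq.ne_zero
    exact_mod_cast this
  have hql0 : (q : PadicAlgCl ℓ) ≠ 0 := by
    have := hq.ne_zero
    exact_mod_cast this
  have hcyc : cyc ℓ (σ⁻¹ ^ M) = ((q : PadicAlgCl ℓ) ^ M)⁻¹ := by
    have h4 : cyc ℓ σ⁻¹ * (q : PadicAlgCl ℓ) = 1 := by
      rw [← cyc_frob hq (Ne.symm hql) hP hqP hσ, ← tv_cyc_mul, inv_mul_cancel, tv_cyc_one]
    have h3 : ∀ n : ℕ, cyc ℓ (σ⁻¹ ^ n) * (q : PadicAlgCl ℓ) ^ n = 1 := by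
      intro n
      induction n with
      | zero => rw [pow_zero, pow_zero, tv_cyc_one, mul_one]
      | succ n ih =>
        rw [pow_succ, tv_cyc_mul, pow_succ]
        calc cyc ℓ (σ⁻¹ ^ n) * cyc ℓ σ⁻¹ * ((q : PadicAlgCl ℓ) ^ n * q) =
            (cyc ℓ (σ⁻¹ ^ n) * (q : PadicAlgCl ℓ) ^ n) * (cyc ℓ σ⁻¹ * q) := by ring
          _ = 1 := by rw [ih, h4, one_mul]
    exact eq_inv_of_mul_eq_one_left (h3 M)
  -- the multiplicity at `ℓ`
  set c : K := ((q : K) ^ M) ^ j with hc
  have hmult : Module.finrank (PadicAlgCl ℓ) W₂ ≤ Module.finrank (PadicAlgCl ℓ) W₁ +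
      (π (σ⁻¹ ^ M)).charpoly.rootMultiplicity (il c) := by
    apply tv_sub
    intro x hx
    have h1 := hTate _ hMH x hx
    rw [hcyc] at h1
    have h2 := W₁.smul_mem (il c) h1
    have h3 : il c * (((q : PadicAlgCl ℓ) ^ M)⁻¹) ^ j = 1 := by
      rw [hc, map_pow, map_pow, map_natCast, ← mul_pow, mul_inv_cancel₀ (pow_ne_zero _ hql0),
        one_pow]
    rw [smul_sub, smul_smul, h3, one_smul] at h2
    exact h2
  -- the multiplicity at `p`
  have hinj1 : ∀ τ : Qbar ≃ₐ[K] Qbar, Function.Injective (Matrix.toLin' (ρ τ)) := by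
    intro τ x y hxy
    have h3 : Matrix.toLin' (ρ τ⁻¹) (Matrix.toLin' (ρ τ) x) =
        Matrix.toLin' (ρ τ⁻¹) (Matrix.toLin' (ρ τ) y) := by rw [hxy]
    rw [← Matrix.toLin'_mul_apply, ← Matrix.toLin'_mul_apply, ← map_mul, inv_mul_cancel, map_one,
      Matrix.toLin'_one, LinearMap.id_apply, LinearMap.id_apply] at h3
    exact h3
  have hinj2 : ∀ τ : Qbar ≃ₐ[K] Qbar, Function.Injective (π τ) := by
    intro τ x y hxy
    have h3 : π τ⁻¹ (π τ x) = π τ⁻¹ (π τ y) := by rw [hxy]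
    rw [← Module.End.mul_apply, ← Module.End.mul_apply, ← map_mul, inv_mul_cancel, map_one,
      Module.End.one_apply, Module.End.one_apply] at h3
    exact h3
  obtain ⟨G, hG1, hG2⟩ := np_charpoly ip il (Matrix.toLin' (ρ (σ⁻¹ ^ M))) (π (σ⁻¹ ^ M))
    (hinj1 _) (hinj2 _) (fun n => (t (M * n) : K)) (by
    intro n hn
    have h3 : ρ (σ⁻¹ ^ (M * n)) = ρ (σ⁻¹ ^ M) ^ n := by rw [pow_mul, map_pow]
    rw [← (ht (M * n) (Nat.mul_pos hM hn)).1, h3, ← Matrix.toLin'_pow, Matrix.trace_toLin'_eq]) (by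
    intro n hn
    have h3 : π (σ⁻¹ ^ (M * n)) = π (σ⁻¹ ^ M) ^ n := by rw [pow_mul, map_pow]
    rw [← (ht (M * n) (Nat.mul_pos hM hn)).2, h3])
  rw [Matrix.charpoly_toLin'] at hG1
  have hmult2 : (π (σ⁻¹ ^ M)).charpoly.rootMultiplicity (il c) =
      (ρ (σ⁻¹ ^ M)).charpoly.rootMultiplicity (ip c) := by
    rw [hG1, hG2, ← Polynomial.eq_rootMultiplicity_map il.injective,
      ← Polynomial.eq_rootMultiplicity_map ip.injective]
  -- the roots of the characteristic polynomial at `p`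
  obtain ⟨red, -, htr⟩ := hrd
  obtain ⟨x, hx1, hx2⟩ := tv_roots (nv ℂ_[p]) red (ρ σ⁻¹) (r σ⁻¹) (by
    intro j hj1 hj2
    have h3 := tu_nat_norm (p := p) hj1 (by omega)
    refine ⟨?_, ?_⟩
    · intro h0
      rw [h0, norm_zero] at h3
      exact zero_ne_one h3
    · change ‖((j : ℂ_[p]))⁻¹‖ ≤ 1
      rw [norm_inv, h3, inv_one]) (by
    intro n _ _
    obtain ⟨t, ht1, ht2⟩ := htr (σ⁻¹ ^ n)
    refine ⟨t, ?_, ?_⟩
    · rw [ht1, one_mul, map_pow]
    · rw [ht2, one_mul, map_pow])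
  have hmult3 : (ρ (σ⁻¹ ^ M)).charpoly.rootMultiplicity (ip c) =
      (Finset.univ.filter fun i : Fin d => (x i : ℂ_[p]) ^ M = ip c).card := by
    have h3 : ρ (σ⁻¹ ^ M) = ρ σ⁻¹ ^ M := map_pow ρ _ _
    rw [← Polynomial.count_roots, h3, tv_pow, hx1, Multiset.map_map, Multiset.count_map]
    rw [Finset.card_def, Finset.filter_val]
    congr 1
    apply Multiset.filter_congr
    intro i _
    exact eq_comm
  have hmult4 : smallEig (r g) = (Finset.univ.filter fun i : Fin d =>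
      ∃ n : ℕ, 0 < n ∧ n.totient ≤ d ∧ (red (x i)) ^ n = 1).card := by
    unfold smallEig
    rw [← hσ1, hx2, Multiset.filter_map, Multiset.card_map, Finset.card_def, Finset.filter_val]
    rfl
  refine hmult.trans ?_
  rw [hmult2, hmult3, hmult4]
  refine Nat.add_le_add_left (Finset.card_le_card ?_) _
  intro i hi
  rw [Finset.mem_filter] at hi ⊢
  refine ⟨hi.1, ?_⟩
  -- one root
  set y : ℂ_[p] := ((q : ℂ_[p]) ^ j)⁻¹ * (x i : ℂ_[p]) with hy
  have hyM : y ^ M = 1 := by
    rw [hy, mul_pow, hi.2, hc, map_pow, map_pow, map_natCast, inv_pow, ← pow_mul, ← pow_mul,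
      mul_comm j M]
    exact inv_mul_cancel₀ (pow_ne_zero _ hq0)
  have hxy : (q : ℂ_[p]) ^ j * y = (x i : ℂ_[p]) := by
    rw [hy, ← mul_assoc, mul_inv_cancel₀ (pow_ne_zero _ hq0), one_mul]
  have hroot : (ρ σ⁻¹).charpoly.IsRoot ((q : ℂ_[p]) ^ j * y) := by
    rw [hxy, ← Polynomial.mem_roots (Matrix.charpoly_monic _).ne_zero, hx1, Multiset.mem_map]
    exact ⟨i, Finset.mem_univ i, rfl⟩
  -- the degree over the cyclotomic field
  let E : IntermediateField ℚ K := IntermediateField.adjoin ℚ {(ζ : K)}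
  let ι : E →+* ℂ_[p] := ip.comp (algebraMap E K)
  have htr1 : ∀ r, 1 ≤ r → LinearMap.trace ℂ_[p] (Fin d → ℂ_[p])
      ((Matrix.toLin' (ρ σ⁻¹)) ^ r) = ι (t r) := by
    intro r hr
    have h3 : ρ (σ⁻¹ ^ r) = ρ σ⁻¹ ^ r := map_pow ρ _ _
    have h4 := (ht r hr).1
    rw [h3] at h4
    rw [← Matrix.toLin'_pow, Matrix.trace_toLin'_eq, h4]
    rfl
  obtain ⟨f, hf, -⟩ := np_charpoly ι ι (Matrix.toLin' (ρ σ⁻¹)) (Matrix.toLin' (ρ σ⁻¹)) (hinj1 _)
    (hinj1 _) t htr1 htr1
  rw [Matrix.charpoly_toLin'] at hf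
  let z : ℂ_[p] := ip (ζ : K)
  have hz : IsPrimitiveRoot z (p ^ a) := by
    have h3 : IsPrimitiveRoot (algebraMap (𝓞 K) K ζ) (p ^ a) :=
      hζ.map_of_injective (RingOfIntegers.coe_injective)
    exact h3.map_of_injective ip.injective
  let L : IntermediateField ℚ ℂ_[p] := IntermediateField.adjoin ℚ {z}
  have hEL : ∀ e : E, ι e ∈ L := by
    intro e
    have h3 : ip.toRatAlgHom (e : K) ∈ (IntermediateField.adjoin ℚ {(ζ : K)}).map
        ip.toRatAlgHom := ⟨(e : K), e.2, rfl⟩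
    rw [IntermediateField.adjoin_map, Set.image_singleton] at h3
    exact h3
  let κ : E →+* L := ι.codRestrict L.toSubring hEL
  have hκ : (algebraMap L ℂ_[p]).comp κ = ι := RingHom.ext fun e => rfl
  have hf0 : f ≠ 0 := by
    rintro rfl
    rw [Polynomial.map_zero] at hf
    exact (Matrix.charpoly_monic (ρ σ⁻¹)).ne_zero hf
  have hfd : f.natDegree = d := by
    have h3 := congrArg Polynomial.natDegree hf
    rw [Matrix.charpoly_natDegree_eq_dim, Fintype.card_fin,
      Polynomial.natDegree_map_eq_of_injective ι.injective] at h3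
    exact h3.symm
  have hxr : ((f.map κ).scaleRoots ((q : L)⁻¹ ^ j)).eval₂ (algebraMap L ℂ_[p]) y = 0 := by
    have h3 : (f.map κ).eval₂ (algebraMap L ℂ_[p]) ((q : ℂ_[p]) ^ j * y) = 0 := by
      rw [Polynomial.eval₂_map, hκ, ← Polynomial.eval_map, ← hf]
      exact hroot
    have h4 := Polynomial.scaleRoots_eval₂_eq_zero (algebraMap L ℂ_[p])
      (s := (q : L)⁻¹ ^ j) h3
    have h5 : algebraMap L ℂ_[p] ((q : L)⁻¹ ^ j) * ((q : ℂ_[p]) ^ j * y) = y := by
      rw [map_pow, map_inv₀, map_natCast, ← mul_assoc, ← mul_pow, inv_mul_cancel₀ hq0, one_pow,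
        one_mul]
    rw [h5] at h4
    exact h4
  obtain ⟨n, b, hn, hnd, hyn⟩ := tu_order hp.out hz L rfl
    (f := (f.map κ).scaleRoots ((q : L)⁻¹ ^ j)) (d := d)
    (Polynomial.scaleRoots_ne_zero ((Polynomial.map_ne_zero_iff κ.injective).mpr hf0) _)
    (by rw [Polynomial.natDegree_scaleRoots,
          Polynomial.natDegree_map_eq_of_injective κ.injective, hfd]) hxr hM hyM
  refine ⟨n, hn, hnd, ?_⟩
  have hyA : y ∈ nv ℂ_[p] := by
    change ‖y‖ ≤ 1
    rw [tu_norm_one hM hyM]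
  let yA : nv ℂ_[p] := ⟨y, hyA⟩
  have h3 : red (x i) = red yA := by
    have h4 : x i = (q : nv ℂ_[p]) ^ j * yA := by
      apply Subtype.ext
      rw [← hxy]
      rfl
    rw [h4, map_mul, map_pow, map_natCast, hqk, one_pow, one_mul]
  have h4 : (red yA) ^ (n * p ^ b) = 1 := by
    rw [← map_pow]
    have h5 : yA ^ (n * p ^ b) = 1 := by
      apply Subtype.ext
      exact hyn
    rw [h5, map_one]
  have h5 : ((red yA) ^ n - 1) ^ p ^ b = 0 := by
    rw [sub_pow_char_pow, one_pow, ← pow_mul, h4, sub_self]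
  rw [h3]
  exact sub_eq_zero.mp (pow_eq_zero_iff (pow_pos hp.out.pos b).ne' |>.mp h5)

end Pool.Agent.TU
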