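import Pool.Agent.Lib_helper61.TB.NP

/-!
# Traces of powers and characteristic polynomials under a reduction map
-/

set_option autoImplicit false

namespace Pool.Agent.TU

open Finset Module Polynomial

/-- The traces of the powers are the power sums of the roots of the characteristic polynomial, in
any characteristic. -/
theorem tu_trace {k V : Type} [Field k] [IsAlgClosed k] [AddCommGroup V] [Module k V]
    [FiniteDimensional k V] (A : End k V) (r : ℕ) :
    LinearMap.trace k V (A ^ r) = (A.charpoly.roots.map (fun x => x ^ r)).sum := by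
  classical
  have hint : DirectSum.IsInternal fun μ ↦ A.maxGenEigenspace μ :=
    DirectSum.isInternal_submodule_of_iSupIndep_of_iSup_eq_top
      A.independent_maxGenEigenspace (End.iSup_maxGenEigenspace_eq_top A)
  have hfin : {μ | A.maxGenEigenspace μ ≠ ⊥}.Finite :=
    WellFoundedGT.finite_ne_bot_of_iSupIndep A.independent_maxGenEigenspace
  set T : Finset k := hfin.toFinset with hT
  have htr : LinearMap.trace k V (A ^ r) =
      ∑ μ ∈ T, (Module.finrank k (A.maxGenEigenspace μ) : k) * μ ^ r := by
    have hcomm : Commute A (A ^ r) := Commute.pow_right (Commute.refl A) r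
    rw [LinearMap.trace_eq_sum_trace_restrict' hint hfin
      (fun μ => A.mapsTo_maxGenEigenspace_of_comm hcomm μ)]
    apply Finset.sum_congr rfl
    intro μ _
    set B : End k (A.maxGenEigenspace μ) :=
      A.restrict (A.mapsTo_maxGenEigenspace_of_comm rfl μ) with hB
    have h1 : (A ^ r).restrict (A.mapsTo_maxGenEigenspace_of_comm hcomm μ) = B ^ r := by
      have h5 : ∀ (r : ℕ) (x : A.maxGenEigenspace μ), (A ^ r) (x : V) = ((B ^ r) x : V) := by
        intro r
        induction r with
        | zero => intro x; simp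
        | succ r ih =>
          intro x
          rw [pow_succ, pow_succ, Module.End.mul_apply, Module.End.mul_apply, ← ih (B x)]
          rfl
      ext x
      exact h5 r x
    have hnil : IsNilpotent (B - algebraMap k _ μ) := by
      have := A.isNilpotent_restrict_maxGenEigenspace_sub_algebraMap μ
      exact this
    have h2 : IsNilpotent (B ^ r - algebraMap k (End k (A.maxGenEigenspace μ)) (μ ^ r)) := by
      rw [map_pow]
      have hc : Commute B (algebraMap k (End k (A.maxGenEigenspace μ)) μ) :=
        (Algebra.commutes μ B).symm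
      rw [← hc.geom_sum₂_mul]
      apply Commute.isNilpotent_mul_left _ hnil
      apply Finset.sum_induction _ (fun x => Commute x (B - algebraMap k _ μ))
      · intro a b ha hb
        exact ha.add_left hb
      · exact Commute.zero_left _
      · intro i _
        apply Commute.mul_left
        · apply Commute.pow_left
          exact (Commute.refl B).sub_right hc
        · apply Commute.pow_left
          exact hc.symm.sub_right (Commute.refl _)
    have h3 : LinearMap.trace k (A.maxGenEigenspace μ)
        (B ^ r - algebraMap k (End k (A.maxGenEigenspace μ)) (μ ^ r)) = 0 := by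
      exact (LinearMap.isNilpotent_trace_of_isNilpotent h2).eq_zero
    have h4 : LinearMap.trace k (A.maxGenEigenspace μ)
        (algebraMap k (End k (A.maxGenEigenspace μ)) (μ ^ r)) =
        (Module.finrank k (A.maxGenEigenspace μ) : k) * μ ^ r := by
      rw [Algebra.algebraMap_eq_smul_one, map_smul, LinearMap.trace_one, smul_eq_mul, mul_comm]
    rw [h1, ← h4, ← sub_eq_zero, ← map_sub, h3]
  have hroots : A.charpoly.roots =
      ∑ μ ∈ T, Multiset.replicate (Module.finrank k (A.maxGenEigenspace μ)) μ := by
    apply Multiset.ext.mpr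
    intro a
    rw [Polynomial.count_roots, Multiset.count_sum', ← LinearMap.finrank_maxGenEigenspace_eq]
    simp only [Multiset.count_replicate]
    by_cases ha : a ∈ T
    · rw [Finset.sum_eq_single a]
      · rw [if_pos rfl]
      · intro b _ hb
        rw [if_neg hb]
      · intro h
        exact absurd ha h
    · rw [Finset.sum_eq_zero]
      · rw [hT, Set.Finite.mem_toFinset, Set.mem_ofPred_eq, not_not] at ha
        rw [ha]
        simp
      · intro b hb
        rw [if_neg]
        rintro rfl
        exact ha hb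
  rw [htr, hroots]
  have h1 : ∀ (T : Finset k), ((∑ μ ∈ T, Multiset.replicate
      (Module.finrank k (A.maxGenEigenspace μ)) μ).map (fun x => x ^ r)).sum =
      ∑ μ ∈ T, (Module.finrank k (A.maxGenEigenspace μ) : k) * μ ^ r := by
    intro T
    induction T using Finset.induction_on with
    | empty => simp
    | insert a T ha ih =>
      rw [Finset.sum_insert ha, Finset.sum_insert ha, Multiset.map_add, Multiset.sum_add, ih,
        Multiset.map_replicate, Multiset.sum_replicate, nsmul_eq_mul]
  rw [h1]

theorem tu_mtrace {k : Type} [Field k] [IsAlgClosed k] {d : ℕ} (M : Matrix (Fin d) (Fin d) k)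
    (r : ℕ) : (M ^ r).trace = (M.charpoly.roots.map (fun x => x ^ r)).sum := by
  have h1 := tu_trace (Matrix.toLin' M) r
  rw [← Matrix.toLin'_pow, Matrix.trace_toLin'_eq, Matrix.charpoly_toLin'] at h1
  exact h1

/-- Newton's identities under a reduction map. -/
theorem tu_esymm {C k : Type} [Field C] [Field k] (A : Subring C) (red : A →+* k) {d₁ d₂ : ℕ}
    (x : Fin d₁ → C) (y : Fin d₂ → k) (D : ℕ)
    (hD : ∀ j, 1 ≤ j → j ≤ D → (j : C) ≠ 0 ∧ ((j : C))⁻¹ ∈ A)
    (h : ∀ r, 1 ≤ r → r ≤ D → ∃ t : A, (t : C) = ∑ i, x i ^ r ∧ red t = ∑ i, y i ^ r)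
    (j : ℕ) (hj : j ≤ D) : ∃ e : A, (e : C) = (Finset.univ.val.map x).esymm j ∧
      red e = (Finset.univ.val.map y).esymm j := by
  induction j using Nat.strong_induction_on with
  | _ j ih =>
    by_cases hj0 : j = 0
    · subst hj0
      refine ⟨1, ?_, ?_⟩
      · simp [Multiset.esymm]
      · rw [map_one]; simp [Multiset.esymm]
    have ih' : ∀ a, ∃ e : A, a < j → (e : C) = (Finset.univ.val.map x).esymm a ∧
        red e = (Finset.univ.val.map y).esymm a := by
      intro a
      by_cases ha : a < j
      · obtain ⟨e, he⟩ := ih a ha (by omega)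
        exact ⟨e, fun _ => he⟩
      · exact ⟨0, fun h => absurd h ha⟩
    choose e he using ih'
    have h' : ∀ r, ∃ t : A, 1 ≤ r → r ≤ D → (t : C) = ∑ i, x i ^ r ∧ red t = ∑ i, y i ^ r := by
      intro r
      by_cases hr : 1 ≤ r ∧ r ≤ D
      · obtain ⟨t, ht⟩ := h r hr.1 hr.2
        exact ⟨t, fun _ _ => ht⟩
      · exact ⟨0, fun h1 h2 => absurd ⟨h1, h2⟩ hr⟩
    choose t ht using h'
    obtain ⟨hjC, hjA⟩ := hD j (by omega) hj
    set jinv : A := ⟨(j : C)⁻¹, hjA⟩ with hjinv
    have hjj : (j : A) * jinv = 1 := by
      apply Subtype.ext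
      rw [Subring.coe_mul, Subring.coe_natCast, Subring.coe_one]
      exact mul_inv_cancel₀ hjC
    set E : A := (-1) ^ (j + 1) *
      ∑ a ∈ antidiagonal j with a.1 < j, (-1) ^ a.1 * e a.1 * t a.2 with hE
    have key : ∀ (k : Type) [Field k] (ι : A →+* k) (d : ℕ) (x : Fin d → k)
        (_ : ∀ r, 1 ≤ r → r ≤ D → ∑ i, x i ^ r = ι (t r))
        (_ : ∀ a, a < j → (Finset.univ.val.map x).esymm a = ι (e a)),
        (Finset.univ.val.map x).esymm j = ι (jinv * E) := by
      intro k _ ι d x ht he
      have hN : (j : k) * (Finset.univ.val.map x).esymm j = ι E := by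
        have h1 := congrArg (MvPolynomial.aeval x) (MvPolynomial.mul_esymm_eq_sum (Fin d) k j)
        rw [map_mul, map_natCast, MvPolynomial.aeval_esymm_eq_multiset_esymm] at h1
        rw [h1, hE, map_mul, map_mul, map_pow, map_neg, map_one, map_pow, map_neg, map_one,
          map_sum, map_sum]
        congr 1
        apply Finset.sum_congr rfl
        intro a ha
        simp only [Finset.mem_filter, Finset.HasAntidiagonal.mem_antidiagonal] at ha
        rw [map_mul, map_mul, map_mul, map_mul, map_pow, map_neg, map_one, map_pow, map_neg,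
          map_one, MvPolynomial.aeval_esymm_eq_multiset_esymm, he a.1 ha.2]
        congr 1
        rw [MvPolynomial.psum, map_sum]
        simp only [map_pow, MvPolynomial.aeval_X]
        exact ht a.2 (by omega) (by omega)
      have hjk : (j : k) * ι jinv = 1 := by
        rw [← map_natCast ι, ← map_mul, hjj, map_one]
      calc (Finset.univ.val.map x).esymm j =
          ((j : k) * ι jinv) * (Finset.univ.val.map x).esymm j := by rw [hjk, one_mul]
        _ = ι jinv * ((j : k) * (Finset.univ.val.map x).esymm j) := by ring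
        _ = ι (jinv * E) := by rw [hN]; exact (map_mul ι jinv E).symm
    refine ⟨jinv * E, ?_, ?_⟩
    · have h1 := key C A.subtype d₁ x (fun r hr hr' => (ht r hr hr').1.symm)
        (fun a ha => (he a ha).1.symm)
      exact h1.symm
    · have h1 := key k red d₂ y (fun r hr hr' => (ht r hr hr').2.symm)
        (fun a ha => (he a ha).2.symm)
      exact h1.symm

/-- The value of the characteristic polynomial. -/
theorem tu_eval {k : Type} [Field k] [IsAlgClosed k] {d : ℕ} (M : Matrix (Fin d) (Fin d) k)
    (z : k) : M.charpoly.eval z =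
      ∑ j ∈ Finset.range (d + 1), (-1) ^ (d - j) * M.charpoly.roots.esymm (d - j) * z ^ j := by
  have hd : M.charpoly.natDegree = d := by
    rw [Matrix.charpoly_natDegree_eq_dim, Fintype.card_fin]
  have hs : M.charpoly.roots.card = M.charpoly.natDegree :=
    (IsAlgClosed.splits M.charpoly).natDegree_eq_card_roots.symm
  rw [Polynomial.eval_eq_sum_range, hd]
  apply Finset.sum_congr rfl
  intro j hj
  rw [Finset.mem_range] at hj
  rw [Polynomial.coeff_eq_esymm_roots_of_card hs (by rw [hd]; omega),
    (Matrix.charpoly_monic M).leadingCoeff, one_mul, hd]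

/-- **The roots of the characteristic polynomial reduce to roots of the characteristic
polynomial.** -/
theorem tu_root {C k : Type} [Field C] [IsAlgClosed C] [Field k] [IsAlgClosed k] (A : Subring C)
    (red : A →+* k) {d : ℕ} (M : Matrix (Fin d) (Fin d) C) (N : Matrix (Fin d) (Fin d) k)
    (hD : ∀ j : ℕ, 1 ≤ j → j ≤ d → (j : C) ≠ 0 ∧ ((j : C))⁻¹ ∈ A)
    (h : ∀ r, 1 ≤ r → r ≤ d → ∃ t : A, (t : C) = (M ^ r).trace ∧ red t = (N ^ r).trace)
    (z : A) (hz : M.charpoly.IsRoot (z : C)) : N.charpoly.IsRoot (red z) := by
  obtain ⟨d₁, x, hx⟩ := Pool.Agent.TB.np_family M.charpoly.roots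
  obtain ⟨d₂, y, hy⟩ := Pool.Agent.TB.np_family N.charpoly.roots
  have h1 := tu_esymm A red x y d hD (by
    intro r hr hr'
    obtain ⟨t, h1, h2⟩ := h r hr hr'
    refine ⟨t, ?_, ?_⟩
    · rw [h1, tu_mtrace, ← hx, Multiset.map_map]
      rfl
    · rw [h2, tu_mtrace, ← hy, Multiset.map_map]
      rfl)
  rw [hx, hy] at h1
  have h' : ∀ j, ∃ e : A, j ≤ d → (e : C) = M.charpoly.roots.esymm j ∧
      red e = N.charpoly.roots.esymm j := by
    intro j
    by_cases hj : j ≤ d
    · obtain ⟨e, he⟩ := h1 j hj
      exact ⟨e, fun _ => he⟩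
    · exact ⟨0, fun h => absurd h hj⟩
  choose e he using h'
  rw [Polynomial.IsRoot.def, tu_eval] at hz ⊢
  have h2 : (∑ j ∈ Finset.range (d + 1), (-1) ^ (d - j) * e (d - j) * z ^ j : A) = 0 := by
    apply Subtype.ext
    rw [Subring.coe_zero, ← hz]
    change A.subtype (∑ j ∈ Finset.range (d + 1), (-1) ^ (d - j) * e (d - j) * z ^ j) = _
    rw [map_sum]
    apply Finset.sum_congr rfl
    intro j _
    rw [map_mul, map_mul, map_pow, map_pow, map_neg, map_one, ← (he (d - j) (by omega)).1]
    rfl
  have h3 := congrArg red h2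
  rw [map_zero, map_sum] at h3
  rw [← h3]
  apply Finset.sum_congr rfl
  intro j _
  rw [map_mul, map_mul, map_pow, map_pow, map_neg, map_one, (he (d - j) (by omega)).2]

end Pool.Agent.TU
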