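import Pool.Agent.Lib_helper28.TE28.Statement

/-!
# The conclusion of the theorem on eigenvalues of small order
-/

set_option autoImplicit false

namespace Pool.Agent.TU

open NumberField Pool.Agent.TT Pool.Agent.TB Pool.Agent.TF

/-- If an open subgroup `H` of the Galois group acts trivially on a subquotient `W₂ / W₁` of the
twist `V(j)` of the representation `π` on `V`, then the dimension of `W₂ / W₁` is at most `e`. -/
def TateClassesLE {K : Type} [Field K] [Algebra K Qbar] {ℓ : ℕ} [Fact ℓ.Prime] {V : Type}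
    [AddCommGroup V] [Module (PadicAlgCl ℓ) V]
    (π : Representation (PadicAlgCl ℓ) (Qbar ≃ₐ[K] Qbar) V) (j e : ℕ) : Prop :=
  ∀ H : Subgroup (Qbar ≃ₐ[K] Qbar), IsOpen (H : Set (Qbar ≃ₐ[K] Qbar)) →
    ∀ W₁ W₂ : Submodule (PadicAlgCl ℓ) V, W₁ ≤ W₂ →
      (∀ σ ∈ H, ∀ x ∈ W₂, cyc ℓ σ ^ j • π σ x - x ∈ W₁) →
        Module.finrank (PadicAlgCl ℓ) W₂ ≤ Module.finrank (PadicAlgCl ℓ) W₁ + e

end Pool.Agent.TU
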