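import Mathlib

/-!
# Orders of the roots of unity among the roots of a polynomial over a cyclotomic field
-/

set_option autoImplicit false

namespace Pool.Agent.TU

open Polynomial IntermediateField

/-- A root of unity that is a root of a polynomial of degree at most `d` over `ℚ(z)`, `z` a
primitive root of unity of order `p ^ a`, has order `n * p ^ b` with `φ(n) ≤ d`. -/
theorem tu_order {Ω : Type} [Field Ω] [CharZero Ω] {p a : ℕ} (hp : p.Prime) {z : Ω}
    (hz : IsPrimitiveRoot z (p ^ a)) (L : IntermediateField ℚ Ω)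
    (hL : L = IntermediateField.adjoin ℚ {z}) {f : L[X]} {d : ℕ}
    (hf0 : f ≠ 0) (hfd : f.natDegree ≤ d) {x : Ω}
    (hx : f.eval₂ (algebraMap L Ω) x = 0) {M : ℕ} (hM : 0 < M) (hxM : x ^ M = 1) :
    ∃ n b : ℕ, 0 < n ∧ n.totient ≤ d ∧ x ^ (n * p ^ b) = 1 := by
  have hx' : IsOfFinOrder x := isOfFinOrder_iff_pow_eq_one.mpr ⟨M, hM, hxM⟩
  have hord : orderOf x ≠ 0 := hx'.orderOf_pos.ne'
  obtain ⟨b, n, hpn, hbn⟩ := Nat.exists_eq_pow_mul_and_not_dvd hord p hp.ne_one
  have hn : 0 < n := by
    rcases Nat.eq_zero_or_pos n with h | h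
    · subst h
      simp at hpn
    · exact h
  have hm : 0 < p ^ a := pow_pos hp.pos a
  have hprim : IsPrimitiveRoot x (orderOf x) := IsPrimitiveRoot.orderOf x
  have hy : IsPrimitiveRoot (x ^ p ^ b) n := hprim.pow (Nat.pos_of_ne_zero hord) hbn
  set y : Ω := x ^ p ^ b with hydef
  have hcop : Nat.Coprime (orderOf z) (orderOf y) := by
    rw [← hz.eq_orderOf, ← hy.eq_orderOf]
    exact Nat.Coprime.pow_left a ((Nat.Prime.coprime_iff_not_dvd hp).mpr hpn)
  have hw : IsPrimitiveRoot (z * y) (p ^ a * n) := by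
    have h1 := (Commute.all z y).orderOf_mul_eq_mul_orderOf_of_coprime hcop
    rw [← hz.eq_orderOf, ← hy.eq_orderOf] at h1
    rw [← h1]
    exact IsPrimitiveRoot.orderOf _
  have hfr : ∀ {w : Ω} {m : ℕ}, 0 < m → IsPrimitiveRoot w m →
      Module.finrank ℚ (IntermediateField.adjoin ℚ {w}) = m.totient := by
    intro w m hm hw
    rw [IntermediateField.adjoin.finrank (hw.isIntegral hm).tower_top,
      ← Polynomial.cyclotomic_eq_minpoly_rat hw hm, Polynomial.natDegree_cyclotomic]
  have hxL : IsIntegral L x := by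
    apply IsAlgebraic.isIntegral
    exact ⟨f, hf0, hx⟩
  set L' : IntermediateField L Ω := IntermediateField.adjoin L {x} with hL'
  have h1 : Module.finrank L L' ≤ d := by
    rw [hL', IntermediateField.adjoin.finrank hxL]
    refine le_trans ?_ hfd
    apply Polynomial.natDegree_le_of_dvd _ hf0
    exact minpoly.dvd L x hx
  have hfinL : FiniteDimensional ℚ L := by
    rw [hL]
    exact IntermediateField.adjoin.finiteDimensional (hz.isIntegral hm).tower_top
  have hfinL' : FiniteDimensional L L' := IntermediateField.adjoin.finiteDimensional hxL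
  have hfin : FiniteDimensional ℚ L' := FiniteDimensional.trans ℚ L L'
  have h2 : Module.finrank ℚ L * Module.finrank L L' = Module.finrank ℚ L' :=
    Module.finrank_mul_finrank ℚ L L'
  have hzL : z ∈ L := by
    rw [hL]
    exact IntermediateField.mem_adjoin_simple_self ℚ z
  have hfrL : Module.finrank ℚ L = (p ^ a).totient := by
    rw [hL]
    exact hfr hm hz
  have hzL' : z ∈ L' := by
    have := L'.algebraMap_mem ⟨z, hzL⟩
    exact this
  have hxL' : x ∈ L' := IntermediateField.mem_adjoin_simple_self L x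
  have hyL' : y ∈ L' := pow_mem hxL' _
  have hle : IntermediateField.adjoin ℚ {z * y} ≤ L'.restrictScalars ℚ := by
    rw [IntermediateField.adjoin_simple_le_iff]
    exact mul_mem hzL' hyL'
  have h3 : Module.finrank ℚ (IntermediateField.adjoin ℚ {z * y}) ≤ Module.finrank ℚ L' := by
    have : FiniteDimensional ℚ (L'.restrictScalars ℚ) := hfin
    exact Submodule.finrank_mono (R := ℚ)
      (s := (IntermediateField.adjoin ℚ {z * y}).toSubalgebra.toSubmodule)
      (t := (L'.restrictScalars ℚ).toSubalgebra.toSubmodule) hle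
  have hcop' : Nat.Coprime (p ^ a) n :=
    Nat.Coprime.pow_left a ((Nat.Prime.coprime_iff_not_dvd hp).mpr hpn)
  rw [hfr (Nat.mul_pos hm hn) hw, ← h2, hfrL, Nat.totient_mul hcop'] at h3
  have h4 : n.totient ≤ Module.finrank L L' :=
    Nat.le_of_mul_le_mul_left h3 (Nat.totient_pos.mpr hm)
  refine ⟨n, b, hn, h4.trans h1, ?_⟩
  rw [mul_comm, ← hbn]
  exact pow_orderOf_eq_one x

end Pool.Agent.TU
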