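import Pool.Agent.Lib_helper61.TU.Newt
import Pool.Agent.Lib_helper61.TU.Cyc
import Pool.Agent.Lib_helper28.TE28.Main

/-!
# Residual representations with an element without eigenvalues of small order
-/

set_option autoImplicit false

namespace Pool.Agent.TU

open NumberField Topology Polynomial
open Pool.Agent.TT Pool.Agent.TB Pool.Agent.TF Pool.Agent.RF Pool.Agent.TBL

/-- The sums are elements of `ℚ(ζ)`. -/
theorem tu_sum_mem {K : Type} [Field K] [NumberField K] {F : Type} [Field F] [Fintype F] (m : ℕ)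
    (ζ : 𝓞 K) (φ : 𝓞 K →+* F) {s : ℕ} (S : Fin s → Stratum K) :
    ((strataSum m ζ φ S : 𝓞 K) : K) ∈ IntermediateField.adjoin ℚ {(ζ : K)} := by
  classical
  have hζ : (ζ : K) ∈ IntermediateField.adjoin ℚ {(ζ : K)} :=
    IntermediateField.mem_adjoin_simple_self ℚ _
  let g : 𝓞 K →+* K := algebraMap (𝓞 K) K
  change g (strataSum m ζ φ S) ∈ _
  unfold strataSum residueSymbol
  rw [map_sum]
  apply sum_mem
  intro i _
  rw [map_mul, map_intCast, map_sum]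
  apply mul_mem (intCast_mem _ _)
  apply sum_mem
  intro x _
  rw [map_sum]
  apply sum_mem
  intro j _
  split_ifs
  · rw [map_pow]
    exact pow_mem hζ _
  · rw [map_zero]
    exact zero_mem _

/-- The traces of the powers of a Frobenius element. -/
theorem tu_pow {K : Type} [Field K] [NumberField K] [Algebra K Qbar] {m : ℕ} {ζ : 𝓞 K} {s : ℕ}
    (S : Fin s → Stratum K) {q : ℕ} (hq : q.Prime) {Q : Ideal (𝓞 Qbar)} (hQ : Q.IsPrime)
    (hqQ : (q : 𝓞 Qbar) ∈ Q) {σ : Qbar ≃ₐ[K] Qbar}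
    (hσ : ∀ x y : 𝓞 Qbar, (y : Qbar) = σ x → y - x ^ q ∈ Q) {k : Type} [Field k]
    (T : (Qbar ≃ₐ[K] Qbar) → k) (ι : K →+* k)
    (hT : ∀ (F : Type) [Field F] [Fintype F] (φ : 𝓞 K →+* F),
      (∀ x : 𝓞 K, φ x = 0 ↔ algebraMap (𝓞 K) (𝓞 Qbar) x ∈ Q) →
      ∀ σ : Qbar ≃ₐ[K] Qbar, (∀ x y : 𝓞 Qbar, (y : Qbar) = σ x → y - x ^ Fintype.card F ∈ Q) →
        T σ⁻¹ = ι (strataSum m ζ φ S : 𝓞 K)) :
    ∃ t : ℕ → IntermediateField.adjoin ℚ {(ζ : K)}, ∀ r : ℕ, 1 ≤ r →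
      T (σ⁻¹ ^ r) = ι (t r : K) := by
  have hqF : Fact q.Prime := ⟨hq⟩
  obtain ⟨φp, hφp, _⟩ := ft_phi hq hQ hqQ hσ
  let _ : ∀ r, Fintype (GaloisField q r) := fun r => Fintype.ofFinite _
  have hcardF : ∀ r, 1 ≤ r → Fintype.card (GaloisField q r) = q ^ r := by
    intro r hr
    rw [← Nat.card_eq_fintype_card]
    exact GaloisField.card q r (by omega)
  let φ : ∀ r, 𝓞 K →+* GaloisField q r := fun r =>
    (algebraMap (ZMod q) (GaloisField q r)).comp φp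
  refine ⟨fun r => ⟨_, tu_sum_mem m ζ (φ r) S⟩, ?_⟩
  intro r hr
  rw [inv_pow]
  exact hT (GaloisField q r) (φ r) (by
    intro x
    rw [← hφp]
    exact map_eq_zero_iff _ (algebraMap (ZMod q) (GaloisField q r)).injective) (σ ^ r) (by
    rw [hcardF r hr]
    exact pl_frob_pow hσ r)

theorem tu_norm_one {p : ℕ} [Fact p.Prime] {x : ℂ_[p]} {M : ℕ} (hM : 0 < M) (hx : x ^ M = 1) :
    ‖x‖ = 1 := by
  have h1 : ‖x‖ ^ M = 1 := by rw [← norm_pow, hx, norm_one]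
  exact (pow_eq_one_iff_of_nonneg (norm_nonneg _) hM.ne').mp h1

theorem tu_nat_norm {p : ℕ} [hp : Fact p.Prime] {j : ℕ} (h1 : 1 ≤ j) (hj : j < p) :
    ‖(j : ℂ_[p])‖ = 1 := by
  have h2 : ((j : ℚ_[p]) : ℂ_[p]) = (j : ℂ_[p]) := by
    change algebraMap ℚ_[p] ℂ_[p] (j : ℚ_[p]) = (j : ℂ_[p])
    rw [map_natCast]
  rw [← h2, PadicComplex.norm_extends']
  rw [Padic.norm_natCast_eq_one_iff]
  exact Nat.coprime_of_lt_prime (by omega) hj hp.out

/-- **No Tate classes if some residual element has no eigenvalue of small order.** -/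
theorem tu_main {K : Type} [Field K] [NumberField K] [Algebra K Qbar] {p a : ℕ} [hp : Fact p.Prime]
    {ζ : 𝓞 K} (hζ : IsPrimitiveRoot ζ (p ^ a)) (ha : 0 < a) {s : ℕ} (S : Fin s → Stratum K)
    (ip : K →+* ℂ_[p]) {d : ℕ} (hd : d < p)
    (ρ : (Qbar ≃ₐ[K] Qbar) →* Matrix (Fin d) (Fin d) ℂ_[p])
    (hρ : Continuous ρ)
    (hT : FrobeniusValues (fun σ => (ρ σ).trace) fun _ _ _ φ =>
      ip (strataSum (p ^ a) ζ φ S : 𝓞 K))
    {k : Type} [Field k] [CharP k p] [IsAlgClosed k]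
    (r : (Qbar ≃ₐ[K] Qbar) →* Matrix (Fin d) (Fin d) k)
    (hr : IsOpen (r.ker : Set (Qbar ≃ₐ[K] Qbar)))
    (hrT : FrobeniusValues (fun σ => (r σ).trace) fun _ _ _ φ => ((strataCard φ S : ℤ) : k))
    {j : ℕ} (hsmall : ∃ g : Qbar ≃ₐ[K] Qbar, ∀ n : ℕ, 0 < n → n.totient ≤ d →
      (1 - r g ^ n).det ≠ 0)
    {ℓ : ℕ} [Fact ℓ.Prime] (il : K →+* PadicAlgCl ℓ) {V : Type} [AddCommGroup V]
    [Module (PadicAlgCl ℓ) V] [Module.Finite (PadicAlgCl ℓ) V]
    (π : Representation (PadicAlgCl ℓ) (Qbar ≃ₐ[K] Qbar) V)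
    (hπ : FrobeniusValues (fun σ => LinearMap.trace (PadicAlgCl ℓ) V (π σ)) fun _ _ _ φ =>
      il (strataSum (p ^ a) ζ φ S : 𝓞 K))
    (H : Subgroup (Qbar ≃ₐ[K] Qbar)) (hH : IsOpen (H : Set (Qbar ≃ₐ[K] Qbar)))
    (W₁ W₂ : Submodule (PadicAlgCl ℓ) V) (hW : W₁ ≤ W₂)
    (hTate : ∀ σ ∈ H, ∀ x ∈ W₂, cyc ℓ σ ^ j • π σ x - x ∈ W₁) : W₁ = W₂ := by
  classical
  by_contra hne
  have hac : Algebra.IsAlgebraic K Qbar := by
    have : Algebra.IsAlgebraic ℚ Qbar := AlgebraicClosure.isAlgebraic ℚ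
    exact Algebra.IsAlgebraic.tower_top (K := ℚ) K
  have hgal : IsGalois K Qbar := by
    have : Algebra.IsSeparable K Qbar := inferInstance
    have : Normal K Qbar := by
      have : IsAlgClosed Qbar := inferInstance
      have : IsAlgClosure K Qbar := ⟨this, hac⟩
      exact IsAlgClosure.normal K Qbar
    exact {}
  have hcomp := fa_compatible 0 1 (fun F _ _ φ => strataSum (p ^ a) ζ φ S) ip il ρ π (by
      obtain ⟨B, hB⟩ := hT
      refine ⟨B, ?_⟩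
      intro q hq hqB P hP hqP F _ _ φ hφ σ hσ
      rw [pow_zero, one_mul, map_one, one_mul]
      exact hB q hq hqB P hP hqP F φ hφ σ hσ) (by
      obtain ⟨B, hB⟩ := hπ
      refine ⟨B, ?_⟩
      intro q hq hqB P hP hqP F _ _ φ hφ σ hσ
      rw [pow_zero, one_mul, map_one, one_mul]
      exact hB q hq hqB P hP hqP F φ hφ σ hσ)
  have hdet := tate_det ip il (fun _ : Fin 1 => d) (fun _ => ρ) (fun _ => hρ) π hcomp j H hH W₁ W₂
    hW hTate hne
  have hrd := rd_one hζ S ip ρ hρ hT r hr hrT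
  -- a Frobenius element
  obtain ⟨g, hg⟩ := hsmall
  obtain ⟨B, hB⟩ := hT
  have hU1 : {σ : Qbar ≃ₐ[K] Qbar | r σ⁻¹ = r g} ∈ 𝓝 g⁻¹ := by
    have h1 : (fun σ : Qbar ≃ₐ[K] Qbar => g * σ) ⁻¹' (r.ker : Set (Qbar ≃ₐ[K] Qbar)) ∈ 𝓝 g⁻¹ := by
      apply (hr.preimage (continuous_const_mul g)).mem_nhds
      rw [Set.mem_preimage, mul_inv_cancel]
      exact Subgroup.one_mem _
    apply Filter.mem_of_superset h1
    intro σ hσ
    rw [Set.mem_preimage, SetLike.mem_coe, MonoidHom.mem_ker, map_mul] at hσ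
    rw [Set.mem_ofPred_eq]
    have h2 : r σ * r σ⁻¹ = 1 := by rw [← map_mul, mul_inv_cancel, map_one]
    calc r σ⁻¹ = r g * r σ * r σ⁻¹ := by rw [hσ, one_mul]
      _ = r g := by rw [mul_assoc, h2, mul_one]
  obtain ⟨q, hq, hqB, P, hP, hqP, σ, hσ1, hσ⟩ :=
    fb_dense g⁻¹ _ hU1 (B ∪ Finset.range (p ^ a + 1))
  rw [Finset.mem_union, Finset.mem_range, not_or] at hqB
  obtain ⟨hqB1, hqB3⟩ := hqB
  rw [Set.mem_ofPred_eq] at hσ1
  have hqF : Fact q.Prime := ⟨hq⟩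
  obtain ⟨φ, hφ, hφ2⟩ := ft_phi hq hP hqP hσ
  have hm0 : 0 < p ^ a := pow_pos hp.out.pos a
  obtain ⟨hζ', hmq⟩ := rs_reduce hq hm0 (by omega) hζ hP hqP φ hφ
  have hpa : p ≤ p ^ a := Nat.le_self_pow ha.ne' p
  have hpq : p ≠ q := by omega
  have hdvd : p ∣ q - 1 := (dvd_pow_self p ha.ne').trans hmq
  have hqk : (q : k) = 1 := by
    have h1 : ((q - 1 : ℕ) : k) = 0 := (CharP.cast_eq_zero_iff k p _).mpr hdvd
    rw [Nat.cast_sub hq.one_le, sub_eq_zero, Nat.cast_one] at h1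
    exact h1
  -- the eigenvalue
  have hfi : H.FiniteIndex :=
    haveI := H.quotient_finite_of_isOpen hH
    Subgroup.finiteIndex_of_finite_quotient
  obtain ⟨M, hM, -, hMH⟩ := Subgroup.exists_pow_mem_of_index_ne_zero hfi.index_ne_zero σ⁻¹
  have h1 := hdet _ hMH
  rw [Fin.prod_univ_one] at h1
  have hcC := cycC_frob (K := K) hq hpq hP hqP hσ
  have hq0 : (q : ℂ_[p]) ≠ 0 := by
    have := hq.ne_zero
    exact_mod_cast this
  have hcC' : cycC p σ⁻¹ = (q : ℂ_[p])⁻¹ := by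
    have h2 := cycC_mul (p := p) σ σ⁻¹
    rw [mul_inv_cancel, cycC_one, hcC] at h2
    exact eq_inv_of_mul_eq_one_right h2.symm
  set X : Matrix (Fin d) (Fin d) ℂ_[p] := cycC p σ⁻¹ ^ j • ρ σ⁻¹ with hX
  have hXM : cycC p (σ⁻¹ ^ M) ^ j • ρ (σ⁻¹ ^ M) = X ^ M := by
    have h2 : ∀ M : ℕ, twist ρ j (σ⁻¹ ^ M) = (twist ρ j σ⁻¹) ^ M := fun M => map_pow _ _ _
    exact h2 M
  rw [hXM] at h1
  have h2 : (1 : ℂ_[p]) ∈ spectrum ℂ_[p] (X ^ M) := by
    rw [spectrum.mem_iff, map_one, Matrix.isUnit_iff_isUnit_det, h1]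
    exact not_isUnit_zero
  rw [spectrum.map_pow_of_pos _ hM] at h2
  obtain ⟨x, hx, hxM⟩ := h2
  simp only at hxM
  have hxn : ‖x‖ = 1 := tu_norm_one hM hxM
  -- the root of the characteristic polynomial
  have hroot : (ρ σ⁻¹).charpoly.IsRoot ((q : ℂ_[p]) ^ j * x) := by
    rw [← Matrix.mem_spectrum_iff_isRoot_charpoly]
    rw [spectrum.mem_iff] at hx ⊢
    intro hu
    apply hx
    have h3 : algebraMap ℂ_[p] (Matrix (Fin d) (Fin d) ℂ_[p]) x - X =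
        ((q : ℂ_[p])⁻¹ ^ j) • (algebraMap ℂ_[p] (Matrix (Fin d) (Fin d) ℂ_[p])
          ((q : ℂ_[p]) ^ j * x) - ρ σ⁻¹) := by
      rw [smul_sub, hX, hcC', Algebra.algebraMap_eq_smul_one, Algebra.algebraMap_eq_smul_one,
        smul_smul, ← mul_assoc, ← mul_pow, inv_mul_cancel₀ hq0, one_pow, one_mul]
    rw [h3]
    have h4 : IsUnit ((q : ℂ_[p])⁻¹ ^ j) := by
      rw [isUnit_iff_ne_zero]
      exact pow_ne_zero _ (inv_ne_zero hq0)
    rw [Matrix.isUnit_iff_isUnit_det] at hu ⊢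
    rw [Matrix.det_smul]
    exact (h4.pow _).mul hu
  -- the degree over the cyclotomic field
  obtain ⟨t, ht⟩ := tu_pow S hq hP hqP hσ (fun σ => (ρ σ).trace) ip (hB q hq hqB1 P hP hqP)
  let E : IntermediateField ℚ K := IntermediateField.adjoin ℚ {(ζ : K)}
  let ι : E →+* ℂ_[p] := ip.comp (algebraMap E K)
  have hinj1 : Function.Injective (Matrix.toLin' (ρ σ⁻¹)) := by
    intro x y hxy
    have h3 : Matrix.toLin' (ρ σ) (Matrix.toLin' (ρ σ⁻¹) x) =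
        Matrix.toLin' (ρ σ) (Matrix.toLin' (ρ σ⁻¹) y) := by rw [hxy]
    rw [← Matrix.toLin'_mul_apply, ← Matrix.toLin'_mul_apply, ← map_mul, mul_inv_cancel, map_one,
      Matrix.toLin'_one, LinearMap.id_apply, LinearMap.id_apply] at h3
    exact h3
  have htr1 : ∀ r, 1 ≤ r → LinearMap.trace ℂ_[p] (Fin d → ℂ_[p])
      ((Matrix.toLin' (ρ σ⁻¹)) ^ r) = ι (t r) := by
    intro r hr
    have h3 : ρ (σ⁻¹ ^ r) = ρ σ⁻¹ ^ r := map_pow ρ _ _
    have h4 := ht r hr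
    rw [h3] at h4
    rw [← Matrix.toLin'_pow, Matrix.trace_toLin'_eq, h4]
    rfl
  obtain ⟨f, hf, -⟩ := np_charpoly ι ι (Matrix.toLin' (ρ σ⁻¹)) (Matrix.toLin' (ρ σ⁻¹)) hinj1 hinj1 t
    htr1 htr1
  rw [Matrix.charpoly_toLin'] at hf
  let z : ℂ_[p] := ip (ζ : K)
  have hz : IsPrimitiveRoot z (p ^ a) := by
    have h3 : IsPrimitiveRoot (algebraMap (𝓞 K) K ζ) (p ^ a) :=
      hζ.map_of_injective (RingOfIntegers.coe_injective)
    exact h3.map_of_injective ip.injective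
  let L : IntermediateField ℚ ℂ_[p] := IntermediateField.adjoin ℚ {z}
  have hEL : ∀ e : E, ι e ∈ L := by
    intro e
    have h3 : ip.toRatAlgHom (e : K) ∈ (IntermediateField.adjoin ℚ {(ζ : K)}).map
        ip.toRatAlgHom := ⟨(e : K), e.2, rfl⟩
    rw [IntermediateField.adjoin_map, Set.image_singleton] at h3
    exact h3
  let κ : E →+* L := ι.codRestrict L.toSubring hEL
  have hκ : (algebraMap L ℂ_[p]).comp κ = ι := RingHom.ext fun e => rfl
  have hf0 : f ≠ 0 := by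
    rintro rfl
    rw [Polynomial.map_zero] at hf
    exact (Matrix.charpoly_monic (ρ σ⁻¹)).ne_zero hf
  have hfd : f.natDegree = d := by
    have h3 := congrArg Polynomial.natDegree hf
    rw [Matrix.charpoly_natDegree_eq_dim, Fintype.card_fin,
      Polynomial.natDegree_map_eq_of_injective ι.injective] at h3
    exact h3.symm
  have hxr : ((f.map κ).scaleRoots ((q : L)⁻¹ ^ j)).eval₂ (algebraMap L ℂ_[p]) x = 0 := by
    have h3 : (f.map κ).eval₂ (algebraMap L ℂ_[p]) ((q : ℂ_[p]) ^ j * x) = 0 := by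
      rw [Polynomial.eval₂_map, hκ, ← Polynomial.eval_map, ← hf]
      exact hroot
    have h4 := Polynomial.scaleRoots_eval₂_eq_zero (algebraMap L ℂ_[p])
      (s := (q : L)⁻¹ ^ j) h3
    have h5 : algebraMap L ℂ_[p] ((q : L)⁻¹ ^ j) * ((q : ℂ_[p]) ^ j * x) = x := by
      rw [map_pow, map_inv₀, map_natCast, ← mul_assoc, ← mul_pow, inv_mul_cancel₀ hq0, one_pow,
        one_mul]
    rw [h5] at h4
    exact h4
  obtain ⟨n, b, hn, hnd, hxn'⟩ := tu_order hp.out hz L rfl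
    (f := (f.map κ).scaleRoots ((q : L)⁻¹ ^ j)) (d := d)
    (Polynomial.scaleRoots_ne_zero ((Polynomial.map_ne_zero_iff κ.injective).mpr hf0) _)
    (by rw [Polynomial.natDegree_scaleRoots,
          Polynomial.natDegree_map_eq_of_injective κ.injective, hfd]) hxr hM hxM
  -- the reduction
  obtain ⟨red, -, htr⟩ := hrd
  let A : Subring ℂ_[p] := (nv ℂ_[p]).toSubring
  have hxA : x ∈ A := by
    change ‖x‖ ≤ 1
    rw [hxn]
  have hqn : ‖(q : ℂ_[p])‖ ≤ 1 := by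
    have h3 : ((q : ℕ) : ℂ_[p]) ∈ nv ℂ_[p] := natCast_mem _ q
    exact h3
  let xA : A := ⟨x, hxA⟩
  let redA : A →+* k := red
  have hroot2 := tu_root A redA (ρ σ⁻¹) (r σ⁻¹) (by
    intro j hj1 hj2
    have h3 := tu_nat_norm (p := p) hj1 (by omega)
    refine ⟨?_, ?_⟩
    · intro h0
      rw [h0, norm_zero] at h3
      exact zero_ne_one h3
    · change ‖((j : ℂ_[p]))⁻¹‖ ≤ 1
      rw [norm_inv, h3, inv_one]) (by
    intro n _ _
    obtain ⟨t, ht1, ht2⟩ := htr (σ⁻¹ ^ n)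
    refine ⟨t, ?_, ?_⟩
    · rw [ht1, one_mul, map_pow]
    · have h3 : redA t = red t := rfl
      rw [h3, ht2, one_mul, map_pow]) ((q : A) ^ j * xA) (by
    have h3 : (((q : A) ^ j * xA : A) : ℂ_[p]) = (q : ℂ_[p]) ^ j * x := by
      rw [Subring.coe_mul, Subring.coe_pow, Subring.coe_natCast]
    rw [h3]
    exact hroot)
  rw [map_mul, map_pow, map_natCast, hqk, one_pow, one_mul] at hroot2
  set β : k := redA xA with hβ
  have hβ1 : β ^ (n * p ^ b) = 1 := by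
    rw [hβ, ← map_pow]
    have h3 : xA ^ (n * p ^ b) = 1 := by
      apply Subtype.ext
      rw [Subring.coe_pow, Subring.coe_one]
      exact hxn'
    rw [h3, map_one]
  have hβ2 : β ^ n = 1 := by
    have h3 : (β ^ n - 1) ^ p ^ b = 0 := by
      rw [sub_pow_char_pow, one_pow, ← pow_mul, hβ1, sub_self]
    exact sub_eq_zero.mp (pow_eq_zero_iff (pow_pos hp.out.pos b).ne' |>.mp h3)
  apply hg n hn hnd
  rw [← hσ1]
  by_contra hcon
  have h3 : β ∈ spectrum k (r σ⁻¹) := Matrix.mem_spectrum_iff_isRoot_charpoly.mpr hroot2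
  have h4 : β ^ n ∈ spectrum k (r σ⁻¹ ^ n) := by
    rw [spectrum.map_pow_of_pos _ hn]
    exact ⟨β, h3, rfl⟩
  rw [hβ2, spectrum.mem_iff, map_one] at h4
  apply h4
  rw [Matrix.isUnit_iff_isUnit_det]
  exact isUnit_iff_ne_zero.mpr hcon

end Pool.Agent.TU
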